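import Pool.Agent.H793R2.FK.Fun

set_option autoImplicit false
open MeasureTheory Filter Topology Metric Set

namespace Pool.Agent.H793R2.FK

set_option linter.unusedSectionVars false
set_option linter.unusedVariables false
variable {V : Type*} [NormedAddCommGroup V] [InnerProductSpace ℝ V] [FiniteDimensional ℝ V]
  [MeasurableSpace V] [BorelSpace V]

/-- pointwise convergent subsequences of uniformly bounded equi-Lipschitz sequences -/
theorem exists_subseq {L M : ℝ} (hL : 0 ≤ L) (g : ℕ → V → ℝ) (hlip : ∀ k x y, |g k x - g k y| ≤ L * dist x y)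
    (hb : ∀ k x, g k x ∈ Icc 0 M) :
    ∃ (φ : ℕ → ℕ) (G : V → ℝ), StrictMono φ ∧ ∀ x, Tendsto (fun k => g (φ k) x) atTop (𝓝 (G x)) := by
  obtain ⟨D, hD⟩ := TopologicalSpace.exists_dense_seq V
  have hcpt : IsCompact (Set.pi univ (fun _ : ℕ => Icc (0 : ℝ) M)) := isCompact_univ_pi fun _ => isCompact_Icc
  obtain ⟨a, -, φ, hφ, ha⟩ := hcpt.tendsto_subseq (x := fun k i => g k (D i)) (fun k i _ => hb k (D i))
  have hconv : ∀ i, Tendsto (fun k => g (φ k) (D i)) atTop (𝓝 (a i)) := fun i =>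
    (tendsto_pi_nhds.1 ha) i
  have hcau : ∀ x, ∃ b, Tendsto (fun k => g (φ k) x) atTop (𝓝 b) := by
    intro x
    apply cauchySeq_tendsto_of_complete
    rw [Metric.cauchySeq_iff]
    intro ε hε
    obtain ⟨y, hy, i, rfl⟩ := Metric.dense_iff.1 hD x (ε / (4 * (L + 1))) (by positivity)
    have hc := (hconv i).cauchySeq
    rw [Metric.cauchySeq_iff] at hc
    obtain ⟨N, hN⟩ := hc (ε / 4) (by positivity)
    refine ⟨N, fun m hm k hk => ?_⟩
    have h1 := hN m hm k hk
    rw [Real.dist_eq] at h1 ⊢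
    have hd : dist x (D i) < ε / (4 * (L + 1)) := by rw [dist_comm]; exact hy
    have hLd : L * dist x (D i) ≤ ε / 4 := by
      have h3 : L * dist x (D i) ≤ (L + 1) * (ε / (4 * (L + 1))) :=
        mul_le_mul (by linarith) hd.le dist_nonneg (by linarith)
      have h4 : (L + 1) * (ε / (4 * (L + 1))) = ε / 4 := by field_simp
      linarith
    have h5 := hlip (φ m) x (D i)
    have h6 := hlip (φ k) x (D i)
    rw [abs_lt] at h1 ⊢
    rw [abs_le] at h5 h6
    constructor <;> linarith [h5.1, h5.2, h6.1, h6.2, h1.1, h1.2]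
  choose G hG using hcau
  exact ⟨φ, G, hφ, hG⟩

theorem Adm.limit {L M R : ℝ} {g : ℕ → V → ℝ} (hg : ∀ k, Adm L M R (g k)) {G : V → ℝ}
    (h : ∀ x, Tendsto (fun k => g k x) atTop (𝓝 (G x))) : Adm L M R G := by
  refine ⟨(hg 0).L0, fun x y => ?_, fun x => ?_, fun x => ?_, fun x hx => ?_⟩
  · exact le_of_tendsto ((h x).sub (h y)).abs (Eventually.of_forall fun k => (hg k).lip x y)
  · exact ge_of_tendsto (h x) (Eventually.of_forall fun k => (hg k).nn x)
  · exact le_of_tendsto (h x) (Eventually.of_forall fun k => (hg k).bd x)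
  · have : Tendsto (fun k => g k x) atTop (𝓝 0) := by
      refine Tendsto.congr (f₁ := fun _ => 0) (fun k => ((hg k).supp x hx).symm) tendsto_const_nhds
    exact tendsto_nhds_unique (h x) this

/-- indicator dominating -/
noncomputable def bdf (M R : ℝ) (x : V) : ℝ := (closedBall (0 : V) R).indicator (fun _ => M) x

theorem bdf_int (M R : ℝ) : Integrable (bdf M R : V → ℝ) := by
  have : ProperSpace V := FiniteDimensional.proper ℝ V
  unfold bdf
  rw [integrable_indicator_iff measurableSet_closedBall]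
  exact integrableOn_const (measure_closedBall_lt_top.ne)

theorem Adm.le_bdf {L M R : ℝ} {f : V → ℝ} (h : Adm L M R f) (x : V) : f x ≤ bdf M R x := by
  unfold bdf
  by_cases hx : x ∈ closedBall (0 : V) R
  · rw [indicator_of_mem hx]; exact h.bd x
  · rw [indicator_of_notMem hx]
    rw [mem_closedBall, dist_zero_right, not_le] at hx
    rw [h.supp x hx]

theorem Adm.limit_comp {L M R : ℝ} {g : ℕ → V → ℝ} (hg : ∀ k, Adm L M R (g k)) {G : V → ℝ}
    (h : ∀ x, Tendsto (fun k => g k x) atTop (𝓝 (G x))) {w : V → ℝ} (hw : Continuous w) {j : ℕ} (hj : j ≠ 0) :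
    Tendsto (fun k => ∫ x, g k x ^ j * w x) atTop (𝓝 (∫ x, G x ^ j * w x)) := by
  have : ProperSpace V := FiniteDimensional.proper ℝ V
  obtain ⟨K, hK⟩ := (isCompact_closedBall (0 : V) R).exists_bound_of_continuousOn hw.continuousOn
  have hM : 0 ≤ M := ((hg 0).nn 0).trans ((hg 0).bd 0)
  apply tendsto_integral_of_dominated_convergence (bdf (M ^ j * |K|) R)
  · intro k
    exact (((hg k).cont.pow j).mul hw).aestronglyMeasurable
  · exact bdf_int _ _
  · intro k
    refine Eventually.of_forall fun x => ?_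
    unfold bdf
    by_cases hx : x ∈ closedBall (0 : V) R
    · rw [indicator_of_mem hx, norm_mul, norm_pow, Real.norm_of_nonneg ((hg k).nn x)]
      apply mul_le_mul
      · exact pow_le_pow_left₀ ((hg k).nn x) ((hg k).bd x) j
      · exact (hK x hx).trans (le_abs_self K)
      · exact norm_nonneg _
      · positivity
    · rw [indicator_of_notMem hx]
      rw [mem_closedBall, dist_zero_right, not_le] at hx
      rw [(hg k).supp x hx, zero_pow hj]; simp
  · refine Eventually.of_forall fun x => ?_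
    exact ((h x).pow j).mul_const _

theorem J_limit {L M R : ℝ} {g : ℕ → V → ℝ} (hg : ∀ k, Adm L M R (g k)) {G : V → ℝ}
    (h : ∀ x, Tendsto (fun k => g k x) atTop (𝓝 (G x))) (s : ℝ) :
    Tendsto (fun k => J s (g k)) atTop (𝓝 (J s G)) := by
  have hM : 0 ≤ M := ((hg 0).nn 0).trans ((hg 0).bd 0)
  unfold J
  apply tendsto_integral_of_dominated_convergence (fun p : V × V => bdf M R p.1 * bdf M R p.2)
  · intro k
    exact (J_int s (hg k) (hg k)).aestronglyMeasurable
  · exact (bdf_int M R).mul_prod (bdf_int M R)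
  · intro k
    refine Eventually.of_forall fun p => ?_
    have n1 := (hg k).nn p.1
    have n2 := (hg k).nn p.2
    have b1 := (hg k).le_bdf p.1
    have b2 := (hg k).le_bdf p.2
    have k0 := ker_nn s p.1 p.2
    have k1 := ker_le s p.1 p.2
    rw [Real.norm_of_nonneg (by positivity)]
    calc g k p.1 * g k p.2 * ker s p.1 p.2 ≤ g k p.1 * g k p.2 * 1 :=
          mul_le_mul_of_nonneg_left k1 (by positivity)
      _ = g k p.1 * g k p.2 := mul_one _
      _ ≤ _ := mul_le_mul b1 b2 n2 (n1.trans b1)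
  · refine Eventually.of_forall fun p => ?_
    exact ((h p.1).mul (h p.2)).mul_const _

structure Cls (f : V → ℝ) (L M R : ℝ) (g : V → ℝ) : Prop where
  adm : Adm L M R g
  sq : ∫ x, g x ^ 2 = ∫ x, f x ^ 2
  lev : ∀ t, 0 < t → volume {x | t < g x} ≤ volume {x | 0 < f x}
  inter : ∀ s, J s f ≤ J s g

theorem Cls.self {f : V → ℝ} {L M R : ℝ} (hf : Adm L M R f) : Cls f L M R f :=
  ⟨hf, rfl, fun t ht => measure_mono fun x hx => lt_trans ht hx, fun s => le_rfl⟩

theorem Cls.pol {f g : V → ℝ} {L M R : ℝ} (h : Cls f L M R g) {n : V} (hn : ‖n‖ = 1) {c : ℝ} (hc : 0 ≤ c) :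
    Cls f L M R (pol n c g) := by
  refine ⟨h.adm.pol hn hc, ?_, fun t ht => ?_, fun s => (h.inter s).trans (J_pol h.adm hn hc s)⟩
  · rw [← h.sq]
    exact pol_integral h.adm hn hc (φ := fun t => t ^ 2) (by fun_prop) (by simp)
  · rw [pol_level h.adm.cont hn (h.adm.pol hn hc).cont]
    exact h.lev t ht

theorem Cls.limit {f : V → ℝ} {L M R : ℝ} {g : ℕ → V → ℝ} (hg : ∀ k, Cls f L M R (g k)) {G : V → ℝ}
    (h : ∀ x, Tendsto (fun k => g k x) atTop (𝓝 (G x))) : Cls f L M R G := by
  refine ⟨Adm.limit (fun k => (hg k).adm) h, ?_, fun t ht => ?_, fun s => ?_⟩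
  · have h1 := Adm.limit_comp (fun k => (hg k).adm) h (w := fun _ => 1) continuous_const two_ne_zero
    simp only [mul_one] at h1
    refine tendsto_nhds_unique h1 ?_
    refine Tendsto.congr (f₁ := fun _ => ∫ x, f x ^ 2) (fun k => ((hg k).sq).symm) tendsto_const_nhds
  · have hsub : {x | t < G x} ⊆ ⋃ m : ℕ, ⋂ k ∈ Ici m, {x | t < g k x} := by
      intro x hx
      have := (h x).eventually_const_lt (show t < G x from hx)
      obtain ⟨m, hm⟩ := eventually_atTop.1 this
      refine mem_iUnion.2 ⟨m, mem_iInter₂.2 fun k hk => hm k hk⟩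
    refine (measure_mono hsub).trans ?_
    have hmono : Monotone (fun m : ℕ => ⋂ k ∈ Ici m, {x | t < g k x}) := by
      intro a b hab x hx
      rw [mem_iInter₂] at hx ⊢
      intro k hk
      exact hx k (hab.trans hk)
    rw [hmono.measure_iUnion]
    refine iSup_le fun m => ?_
    refine (measure_mono ?_).trans ((hg m).lev t ht)
    exact biInter_subset_of_mem (self_mem_Ici)
  · exact ge_of_tendsto (J_limit (fun k => (hg k).adm) h s) (Eventually.of_forall fun k => (hg k).inter s)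

/-- existence of a symmetric competitor -/
theorem exists_sym {f : V → ℝ} {L M R : ℝ} (hf : Adm L M R f) :
    ∃ g, Cls f L M R g ∧ ∀ x y : V, ‖x‖ < ‖y‖ → g y ≤ g x := by
  have hwc : Continuous (fun x : V => ‖x‖ ^ 2) := by fun_prop
  set A : Set ℝ := {a | ∃ g, Cls f L M R g ∧ a = ∫ x, g x * ‖x‖ ^ 2} with hA
  have hne : A.Nonempty := ⟨_, f, Cls.self hf, rfl⟩
  have hbdd : BddBelow A := by
    refine ⟨0, ?_⟩
    rintro a ⟨g, hg, rfl⟩
    exact integral_nonneg fun x => mul_nonneg (hg.adm.nn x) (by positivity)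
  obtain ⟨a, -, ha, haA⟩ := exists_seq_tendsto_sInf hne hbdd
  choose g hg hga using haA
  obtain ⟨φ, G, hφ, hG⟩ := exists_subseq hf.L0 g (fun k => (hg k).adm.lip)
    (fun k x => ⟨(hg k).adm.nn x, (hg k).adm.bd x⟩)
  have hGc : Cls f L M R G := Cls.limit (fun k => hg (φ k)) hG
  have hlim := Adm.limit_comp (fun k => (hg (φ k)).adm) hG hwc one_ne_zero
  simp only [pow_one] at hlim
  have hval : ∫ x, G x * ‖x‖ ^ 2 = sInf A := by
    refine tendsto_nhds_unique hlim ?_
    have := ha.comp hφ.tendsto_atTop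
    refine this.congr fun k => ?_
    exact hga (φ k)
  refine ⟨G, hGc, ?_⟩
  intro x y hxy
  have hxy' : x ≠ y := by rintro rfl; exact lt_irrefl _ hxy
  have hd : 0 < ‖y - x‖ := norm_pos_iff.2 (sub_ne_zero.2 hxy'.symm)
  set n : V := ‖y - x‖⁻¹ • (y - x) with hn'
  have hn : ‖n‖ = 1 := by
    rw [hn', norm_smul, norm_inv, norm_norm, inv_mul_cancel₀ hd.ne']
  set c : ℝ := (‖y‖ ^ 2 - ‖x‖ ^ 2) / (2 * ‖y - x‖) with hc'
  have hc : 0 < c := by
    apply div_pos _ (by positivity)
    have := norm_nonneg x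
    nlinarith
  have hnx : inner ℝ n x = ‖y - x‖⁻¹ * (inner ℝ y x - ‖x‖ ^ 2) := by
    rw [hn', inner_smul_left, inner_sub_left, real_inner_self_eq_norm_sq]; simp
  have hexp : ‖y - x‖ ^ 2 = ‖y‖ ^ 2 - 2 * inner ℝ y x + ‖x‖ ^ 2 := norm_sub_sq_real y x
  have hsd : sd n c x = - ‖y - x‖ / 2 := by
    unfold sd
    rw [hnx, hc']
    field_simp
    rw [hexp]; ring
  have hrf : rf n c x = y := by
    have h1 : 2 * (inner ℝ n x - c) = - ‖y - x‖ := by
      have := hsd; unfold sd at this; rw [this]; ring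
    unfold rf
    rw [h1, hn', smul_smul]
    have : -‖y - x‖ * ‖y - x‖⁻¹ = -1 := by
      rw [neg_mul, mul_inv_cancel₀ hd.ne']
    rw [this]; module
  have hpe : Pool.Agent.H793R2.FK.pol n c G = G := by
    apply moment_pol hGc.adm hn hc
    rw [hval]
    exact csInf_le hbdd ⟨_, hGc.pol hn hc.le, rfl⟩
  have h2 := congrFun hpe x
  rw [pol_of_neg (by rw [hsd]; linarith), hrf] at h2
  rw [← h2]
  exact le_max_right _ _

end Pool.Agent.H793R2.FK
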