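import Pool.Agent.H793R2.FK.Cpt

set_option autoImplicit false
open MeasureTheory Filter Topology Metric Set

namespace Pool.Agent.H793R2.FK

set_option linter.unusedSectionVars false
set_option linter.unusedVariables false
variable {V : Type*} [NormedAddCommGroup V] [InnerProductSpace ℝ V] [FiniteDimensional ℝ V]
  [MeasurableSpace V] [BorelSpace V]

/-- translation energy -/
noncomputable def Tr (g : V → ℝ) (z : V) : ℝ := ∫ x, (g (x + z) - g x) ^ 2

noncomputable def En (s : ℝ) (g : V → ℝ) : ℝ := ∫ z in ball (0 : V) s, Tr g z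

/-- continuous with compact support -/
def CC (g : V → ℝ) : Prop := Continuous g ∧ HasCompactSupport g

theorem CC.int {g : V → ℝ} (hg : CC g) : Integrable g := hg.1.integrable_of_hasCompactSupport hg.2

theorem CC.sq {g : V → ℝ} (hg : CC g) : CC (fun x => g x ^ 2) :=
  ⟨hg.1.pow 2, hg.2.comp_left (g := fun t : ℝ => t ^ 2) (by simp)⟩

theorem CC.shift {g : V → ℝ} (hg : CC g) (z : V) : CC (fun x => g (x + z)) :=
  ⟨hg.1.comp (by fun_prop), hg.2.comp_homeomorph (Homeomorph.addRight z)⟩

theorem CC.sub {g h : V → ℝ} (hg : CC g) (hh : CC h) : CC (fun x => g x - h x) :=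
  ⟨hg.1.sub hh.1, hg.2.sub hh.2⟩

theorem CC.mul {g h : V → ℝ} (hg : CC g) (hh : CC h) : CC (fun x => g x * h x) :=
  ⟨hg.1.mul hh.1, hg.2.mul_right⟩

theorem CC.abs {g : V → ℝ} (hg : CC g) : CC (fun x => |g x|) :=
  ⟨hg.1.abs, hg.2.comp_left (g := fun t : ℝ => |t|) (by simp)⟩

theorem Tr_eq {g : V → ℝ} (hg : CC g) (z : V) :
    Tr g z = 2 * (∫ x, g x ^ 2) - 2 * ∫ x, g x * g (x + z) := by
  unfold Tr
  have e : ∀ x, (g (x + z) - g x) ^ 2 = g (x + z) ^ 2 + g x ^ 2 - 2 * (g x * g (x + z)) := fun x => by ring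
  simp only [e]
  rw [integral_sub (f := fun x => g (x + z) ^ 2 + g x ^ 2) ((hg.shift z).sq.int.add hg.sq.int)
      ((hg.mul (hg.shift z)).int.const_mul 2),
    integral_add (hg.shift z).sq.int hg.sq.int, integral_const_mul,
    integral_add_right_eq_self (fun x => g x ^ 2) z]
  ring

theorem Tr_nonneg (g : V → ℝ) (z : V) : 0 ≤ Tr g z := integral_nonneg fun x => sq_nonneg _

/-- the shear `(x, y) ↦ (x, x + y)` -/
theorem mp_shear : MeasurePreserving (fun p : V × V => (p.1, p.1 + p.2))
    ((volume : Measure V).prod volume) ((volume : Measure V).prod volume) :=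
  measurePreserving_prod_add volume volume

theorem J_eq {g : V → ℝ} (hg : CC g) (s : ℝ) :
    Integrable (fun p : V × V => g p.1 * g (p.1 + p.2) * (ball (0 : V) s).indicator (fun _ => (1 : ℝ)) p.2) ∧
    J s g = ∫ z in ball (0 : V) s, ∫ x, g x * g (x + z) := by
  have hint : Integrable (fun p : V × V => g p.1 * g p.2 * ker s p.1 p.2) := by
    have h1 : Integrable (fun p : V × V => g p.1 * g p.2) := hg.int.mul_prod hg.int
    refine h1.mul_bdd (c := 1) (ker_meas s).aestronglyMeasurable (Eventually.of_forall fun p => ?_)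
    rw [Real.norm_of_nonneg (ker_nn _ _ _)]
    exact ker_le _ _ _
  obtain ⟨e1, e2⟩ := mp_integral (μ := (volume : Measure V).prod volume) mp_shear hint
  have hk : ∀ p : V × V, ker s p.1 (p.1 + p.2) = (ball (0 : V) s).indicator (fun _ => (1 : ℝ)) p.2 := by
    intro p
    unfold ker
    rw [dist_self_add_right]
    by_cases h : p.2 ∈ ball (0 : V) s
    · rw [indicator_of_mem h, if_pos (by rwa [mem_ball_zero_iff] at h)]
    · rw [indicator_of_notMem h, if_neg (by rwa [mem_ball_zero_iff] at h)]
  simp only [hk] at e1 e2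
  refine ⟨e2, ?_⟩
  have e3 : J s g = ∫ p : V × V, g p.1 * g (p.1 + p.2) * (ball (0 : V) s).indicator (fun _ => (1 : ℝ)) p.2
      ∂(volume.prod volume) := e1.symm
  rw [e3, integral_prod_symm _ e2, ← integral_indicator measurableSet_ball]
  apply integral_congr_ae
  refine Eventually.of_forall fun z => ?_
  simp only
  by_cases h : z ∈ ball (0 : V) s
  · rw [indicator_of_mem h, indicator_of_mem h]; simp
  · rw [indicator_of_notMem h, indicator_of_notMem h]; simp

theorem En_eq {g : V → ℝ} (hg : CC g) (s : ℝ) :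
    En s g = 2 * (volume (ball (0 : V) s)).toReal * (∫ x, g x ^ 2) - 2 * J s g := by
  obtain ⟨h1, h2⟩ := J_eq hg s
  have h3 : IntegrableOn (fun z => ∫ x, g x * g (x + z)) (ball (0 : V) s) := by
    have := h1.integral_prod_right
    rw [← integrable_indicator_iff measurableSet_ball]
    refine this.congr (Eventually.of_forall fun z => ?_)
    simp only
    by_cases h : z ∈ ball (0 : V) s
    · rw [indicator_of_mem h, indicator_of_mem h]; simp
    · rw [indicator_of_notMem h, indicator_of_notMem h]; simp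
  unfold En
  simp only [Tr_eq hg]
  have : ProperSpace V := FiniteDimensional.proper ℝ V
  have hc : IntegrableOn (fun _ : V => 2 * ∫ x, g x ^ 2) (ball (0 : V) s) :=
    integrableOn_const measure_ball_lt_top.ne
  rw [integral_sub hc (h3.const_mul 2), integral_const_mul, integral_const_mul,
    ← h2, setIntegral_const, smul_eq_mul]
  unfold Measure.real
  ring

theorem Tr_intOn {g : V → ℝ} (hg : CC g) (s : ℝ) : IntegrableOn (Tr g) (ball (0 : V) s) := by
  obtain ⟨h1, h2⟩ := J_eq hg s
  have : ProperSpace V := FiniteDimensional.proper ℝ V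
  have h3 : IntegrableOn (fun z => ∫ x, g x * g (x + z)) (ball (0 : V) s) := by
    have := h1.integral_prod_right
    rw [← integrable_indicator_iff measurableSet_ball]
    refine this.congr (Eventually.of_forall fun z => ?_)
    simp only
    by_cases h : z ∈ ball (0 : V) s
    · rw [indicator_of_mem h, indicator_of_mem h]; simp
    · rw [indicator_of_notMem h, indicator_of_notMem h]; simp
  have h4 : Tr g = fun z => 2 * (∫ x, g x ^ 2) - 2 * ∫ x, g x * g (x + z) := funext fun z => Tr_eq hg z
  rw [h4]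
  have hc : IntegrableOn (fun _ : V => 2 * ∫ x, g x ^ 2) (ball (0 : V) s) :=
    integrableOn_const measure_ball_lt_top.ne
  exact hc.sub (h3.const_mul 2)

theorem En_mono_of_Tr {g h : V → ℝ} (hg : CC g) (hh : CC h) (H : ∀ z, Tr g z ≤ Tr h z) (s : ℝ) :
    En s g ≤ En s h :=
  integral_mono (Tr_intOn hg s) (Tr_intOn hh s) H

theorem Adm.cc {L M R : ℝ} {f : V → ℝ} (h : Adm L M R f) : CC f := ⟨h.cont, h.comp⟩

/-- the symmetric competitor has smaller translation energy -/
theorem Cls.En_le {f g : V → ℝ} {L M R : ℝ} (hf : Adm L M R f) (h : Cls f L M R g) (s : ℝ) :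
    En s g ≤ En s f := by
  rw [En_eq h.adm.cc, En_eq hf.cc, h.sq]
  linarith [h.inter s]

theorem Tr_abs_le {g : V → ℝ} (hg : CC g) (z : V) : Tr (fun x => |g x|) z ≤ Tr g z := by
  unfold Tr
  apply integral_mono ((hg.abs.shift z).sub hg.abs).sq.int ((hg.shift z).sub hg).sq.int
  intro x
  simp only
  rw [← sq_abs (g (x + z) - g x)]
  exact (sq_le_sq₀' (abs_abs_sub_abs_le_abs_sub _ _))
where
  sq_le_sq₀' {a b : ℝ} (h : |a| ≤ b) : a ^ 2 ≤ b ^ 2 := by
    rw [← sq_abs a]
    exact pow_le_pow_left₀ (abs_nonneg _) h 2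

/-- Jensen/translation bound for `C¹` functions -/
theorem Tr_le {f : V → ℝ} (hf : ContDiff ℝ 1 f) (hc : HasCompactSupport f) (z : V) :
    Tr f z ≤ ∫ x, (fderiv ℝ f x z) ^ 2 := by
  have hd : Continuous (fun x => fderiv ℝ f x z) := (hf.continuous_fderiv (by simp)).clm_apply continuous_const
  have hdc : HasCompactSupport (fun x => fderiv ℝ f x z) := by
    have := hc.fderiv (𝕜 := ℝ)
    exact this.comp_left (g := fun A : V →L[ℝ] ℝ => A z) (by simp)
  have hG : CC (fun x => (fderiv ℝ f x z) ^ 2) := CC.sq ⟨hd, hdc⟩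
  -- pointwise
  have hpt : ∀ x, (f (x + z) - f x) ^ 2 ≤ ∫ t in (0:ℝ)..1, (fderiv ℝ f (x + t • z) z) ^ 2 := by
    intro x
    have hft : ∀ t ∈ uIcc (0:ℝ) 1, HasDerivAt (fun t : ℝ => f (x + t • z)) (fderiv ℝ f (x + t • z) z) t := by
      intro t _
      have h1 : HasDerivAt (fun t : ℝ => x + t • z) z t := by
        have := ((hasDerivAt_id t).smul_const z).const_add x
        simpa using this
      exact ((hf.differentiable (by simp)) (x + t • z)).hasFDerivAt.comp_hasDerivAt t h1
    have hcont : Continuous (fun t : ℝ => fderiv ℝ f (x + t • z) z) := hd.comp (by fun_prop)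
    have h2 := intervalIntegral.integral_eq_sub_of_hasDerivAt hft (hcont.intervalIntegrable _ _)
    simp only [one_smul, zero_smul, add_zero] at h2
    rw [← h2]
    set m := ∫ t in (0:ℝ)..1, fderiv ℝ f (x + t • z) z with hm
    have h3 : 0 ≤ ∫ t in (0:ℝ)..1, (fderiv ℝ f (x + t • z) z - m) ^ 2 :=
      intervalIntegral.integral_nonneg zero_le_one fun t _ => sq_nonneg _
    have h4 : ∫ t in (0:ℝ)..1, (fderiv ℝ f (x + t • z) z - m) ^ 2 =
        (∫ t in (0:ℝ)..1, (fderiv ℝ f (x + t • z) z) ^ 2) - m ^ 2 := by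
      have e : ∀ t : ℝ, (fderiv ℝ f (x + t • z) z - m) ^ 2 =
        (fderiv ℝ f (x + t • z) z) ^ 2 - 2 * m * (fderiv ℝ f (x + t • z) z) + m ^ 2 := fun t => by ring
      simp only [e]
      rw [intervalIntegral.integral_add, intervalIntegral.integral_sub, intervalIntegral.integral_const_mul, ← hm]
      · simp; ring
      · exact (hcont.pow 2).intervalIntegrable _ _
      · exact (hcont.const_mul _).intervalIntegrable _ _
      · exact ((hcont.pow 2).sub (hcont.const_mul _)).intervalIntegrable _ _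
      · exact continuous_const.intervalIntegrable _ _
    linarith
  -- integrate
  have hcl : IsCompact (Icc (0:ℝ) 1) := isCompact_Icc
  have hprod : Integrable (fun p : V × ℝ => (fderiv ℝ f (p.1 + p.2 • z) z) ^ 2)
      ((volume : Measure V).prod (volume.restrict (Ioc (0:ℝ) 1))) := by
    have : ProperSpace V := FiniteDimensional.proper ℝ V
    obtain ⟨r, hr⟩ := hdc.isBounded.subset_closedBall (0 : V)
    obtain ⟨K, hK⟩ := hG.1.bounded_above_of_compact_support hG.2
    have hcontp : Continuous (fun p : V × ℝ => (fderiv ℝ f (p.1 + p.2 • z) z) ^ 2) := hG.1.comp (by fun_prop)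
    refine Integrable.mono' (g := fun p : V × ℝ => (closedBall (0 : V) (r + ‖z‖)).indicator (fun _ => K) p.1 * 1) ?_
      hcontp.aestronglyMeasurable ?_
    · apply Integrable.mul_prod (f := fun x : V => (closedBall (0 : V) (r + ‖z‖)).indicator (fun _ => K) x)
        (g := fun _ : ℝ => (1:ℝ))
      · rw [integrable_indicator_iff measurableSet_closedBall]
        exact integrableOn_const measure_closedBall_lt_top.ne
      · exact integrable_const _
    · have hs : ∀ᵐ p : V × ℝ ∂((volume : Measure V).prod (volume.restrict (Ioc (0:ℝ) 1))), p.2 ∈ Ioc (0:ℝ) 1 := by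
        have h0 : ∀ᵐ t ∂(volume.restrict (Ioc (0:ℝ) 1)), t ∈ Ioc (0:ℝ) 1 := ae_restrict_mem measurableSet_Ioc
        exact Measure.quasiMeasurePreserving_snd.ae h0
      filter_upwards [hs] with p hp
      rw [mul_one]
      by_cases hx : p.1 ∈ closedBall (0 : V) (r + ‖z‖)
      · rw [indicator_of_mem hx]; exact hK _
      · rw [indicator_of_notMem hx]
        have : (fderiv ℝ f (p.1 + p.2 • z) z) = 0 := by
          by_contra hne
          have h1 : p.1 + p.2 • z ∈ tsupport (fun x => fderiv ℝ f x z) := subset_tsupport _ hne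
          have h2 := hr h1
          rw [mem_closedBall_zero_iff] at h2 hx
          apply hx
          have h3 : ‖p.2 • z‖ ≤ ‖z‖ := by
            rw [norm_smul, Real.norm_of_nonneg hp.1.le]
            exact mul_le_of_le_one_left (norm_nonneg _) hp.2
          calc ‖p.1‖ = ‖(p.1 + p.2 • z) - p.2 • z‖ := by congr 1; abel
            _ ≤ ‖p.1 + p.2 • z‖ + ‖p.2 • z‖ := norm_sub_le _ _
            _ ≤ r + ‖z‖ := add_le_add h2 h3
        rw [this]; simp
  have hfub := integral_integral_swap (f := fun (x : V) (t : ℝ) => (fderiv ℝ f (x + t • z) z) ^ 2) hprod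
  calc Tr f z = ∫ x, (f (x + z) - f x) ^ 2 := rfl
    _ ≤ ∫ x, ∫ t in (0:ℝ)..1, (fderiv ℝ f (x + t • z) z) ^ 2 := by
        apply integral_mono (CC.sub (CC.shift ⟨hf.continuous, hc⟩ z) ⟨hf.continuous, hc⟩).sq.int _ hpt
        have := hprod.integral_prod_left
        refine this.congr (Eventually.of_forall fun x => ?_)
        simp only
        rw [intervalIntegral.integral_of_le zero_le_one]
    _ = ∫ x, ∫ t in Ioc (0:ℝ) 1, (fderiv ℝ f (x + t • z) z) ^ 2 := by
        apply integral_congr_ae
        refine Eventually.of_forall fun x => ?_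
        simp only
        rw [intervalIntegral.integral_of_le zero_le_one]
    _ = ∫ t in Ioc (0:ℝ) 1, ∫ x, (fderiv ℝ f (x + t • z) z) ^ 2 := hfub
    _ = ∫ t in Ioc (0:ℝ) 1, ∫ x, (fderiv ℝ f x z) ^ 2 := by
        apply integral_congr_ae
        refine Eventually.of_forall fun t => ?_
        simp only
        exact integral_add_right_eq_self (fun x => (fderiv ℝ f x z) ^ 2) (t • z)
    _ = ∫ x, (fderiv ℝ f x z) ^ 2 := by simp

end Pool.Agent.H793R2.FK
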