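import Pool.Agent.H793R2.FK.Moll
import Pool.Agent.Helper949.TB.Main

set_option autoImplicit false
open MeasureTheory Filter Topology Metric Set
open Pool.Agent.Helper949.TB

namespace Pool.Agent.H793R2.FK

set_option linter.unusedVariables false

/-- Faber–Krahn for Lipschitz functions with bounded nonlocal energies -/
theorem fk_lip (N : ℕ) (hN : 2 ≤ N) (F : ℝ → ℝ) (R₀ : ℝ) (hG : Ground N F R₀) {e : E N} (he : ‖e‖ = 1)
    {f : E N → ℝ} {L M R : ℝ} (hf : Adm L M R f) {A : ℝ} (hA : ∀ s, 0 < s → s < 1 → En s f ≤ mom e s * A)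
    {ρ : ℝ} (hρ : 0 < ρ) (hvol : volume {x | 0 < f x} ≤ volume (ball (0 : E N) ρ)) :
    (R₀ / ρ) ^ 2 * ∫ x, f x ^ 2 ≤ A := by
  have hR0 := hG.Rpos
  obtain ⟨g, hg, hmono⟩ := exists_sym hf
  have hM : 0 ≤ M := (hf.nn 0).trans (hf.bd 0)
  -- the support of `g`
  have hsupp : ∀ y, ρ < ‖y‖ → g y = 0 := by
    intro y hy
    by_contra hne
    have hpos : 0 < g y := lt_of_le_of_ne (hg.adm.nn y) (Ne.symm hne)
    have h1 : ball (0 : E N) ‖y‖ ⊆ {x | g y / 2 < g x} := by
      intro x hx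
      rw [mem_ball_zero_iff] at hx
      have := hmono x y hx
      show g y / 2 < g x
      linarith
    have h2 : volume (ball (0 : E N) ‖y‖) ≤ volume (ball (0 : E N) ρ) :=
      (measure_mono h1).trans ((hg.lev _ (by linarith)).trans hvol)
    rw [vol_ball N 0 _ (hρ.trans hy), vol_ball N 0 ρ hρ] at h2
    have : NeZero N := ⟨by omega⟩
    have hb1pos : volume (ball (0 : E N) 1) ≠ 0 := (measure_ball_pos _ _ one_pos).ne'
    have hb1fin : volume (ball (0 : E N) 1) ≠ ⊤ := measure_ball_lt_top.ne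
    rw [ENNReal.mul_le_mul_iff_left hb1pos hb1fin, ENNReal.ofReal_le_ofReal_iff (by positivity)] at h2
    have : ρ ^ N < ‖y‖ ^ N := pow_lt_pow_left₀ hy hρ.le (by omega)
    linarith
  have hgA : ∀ s, 0 < s → s < 1 → En s g ≤ mom e s * A := fun s h1 h2 => (hg.En_le hf s).trans (hA s h1 h2)
  set K : ℝ := (volume (ball (0 : E N) (ρ + 2))).toReal with hK
  have hKfin : volume (ball (0 : E N) (ρ + 2)) ≠ ⊤ := measure_ball_lt_top.ne
  -- quantitative inequality
  have key : ∀ δ, 0 < δ → δ < 1 → (R₀ / (ρ + 2 * δ)) ^ 2 * ((∫ x, g x ^ 2) - L * δ * (2 * M) * K) ≤ A := by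
    intro δ hδ hδ1
    obtain ⟨η, hηs, hηc, hη0, hη1, hηz⟩ := exists_eta (V := E N) δ hδ
    set h := moll η g with hh
    have hgc := hg.adm.cc
    have hhs : ContDiff ℝ (⊤ : ℕ∞) h := moll_smooth hηs hηc.2 hgc
    have hhc : CC h := moll_cc hηc hgc
    have hhz : ∀ x, ρ + δ ≤ ‖x‖ → h x = 0 := fun x hx => moll_zero hηz hsupp x hx
    have hts : tsupport h ⊆ ball (0 : E N) (ρ + 2 * δ) := by
      have h1 : tsupport h ⊆ closedBall (0 : E N) (ρ + δ) := by
        apply closure_minimal _ isClosed_closedBall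
        intro x hx
        rw [mem_closedBall_zero_iff]
        by_contra hcon
        exact hx (hhz x (by linarith))
      refine h1.trans fun x hx => ?_
      rw [mem_closedBall_zero_iff] at hx
      rw [mem_ball_zero_iff]
      linarith
    have hb := ball_ineq N hN F R₀ hG 0 (ρ + 2 * δ) (by linarith) h ⟨hhs, hhc.2, hts⟩
    have hgr : ∫ x, ‖fderiv ℝ h x‖ ^ 2 ≤ A := by
      apply grad_le he (hhs.of_le (by simp)) hhc.2
      intro s hs0 hs1
      exact (En_mono_of_Tr hhc hgc (Tr_moll hηc hη0 hη1 hgc) s).trans (hgA s hs0 hs1)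
    have hdiff : (∫ x, g x ^ 2) - L * δ * (2 * M) * K ≤ ∫ x, h x ^ 2 := by
      have hnn : ∀ x, 0 ≤ h x := fun x => integral_nonneg fun t => mul_nonneg (hη0 t) (hg.adm.nn _)
      have hbd : ∀ x, h x ≤ M := by
        intro x
        have h2 : ∫ t, η t * g (x - t) ≤ ∫ t, η t * M := by
          apply integral_mono (moll_int hηc hgc x) (hηc.int.mul_const _)
          intro t
          exact mul_le_mul_of_nonneg_left (hg.adm.bd _) (hη0 t)
        rw [integral_mul_const, hη1, one_mul] at h2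
        exact h2
      have hpt : ∀ x, g x ^ 2 - h x ^ 2 ≤ (ball (0 : E N) (ρ + 2)).indicator (fun _ => L * δ * (2 * M)) x := by
        intro x
        by_cases hx : x ∈ ball (0 : E N) (ρ + 2)
        · rw [indicator_of_mem hx]
          have h3 := moll_close hηc hη0 hη1 hηz hgc hg.adm.L0 hg.adm.lip x
          rw [← hh, abs_le] at h3
          have h4 : g x - h x ≤ L * δ := by linarith [h3.1]
          have e : g x ^ 2 - h x ^ 2 = (g x - h x) * (g x + h x) := by ring
          rw [e]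
          have h5 : 0 ≤ g x + h x := add_nonneg (hg.adm.nn x) (hnn x)
          have h6 : g x + h x ≤ 2 * M := by linarith [hg.adm.bd x, hbd x]
          have h7 : 0 ≤ L * δ := mul_nonneg hg.adm.L0 hδ.le
          calc (g x - h x) * (g x + h x) ≤ (L * δ) * (g x + h x) := mul_le_mul_of_nonneg_right h4 h5
            _ ≤ L * δ * (2 * M) := mul_le_mul_of_nonneg_left h6 h7
        · rw [indicator_of_notMem hx]
          rw [mem_ball_zero_iff, not_lt] at hx
          rw [hsupp x (by linarith), hhz x (by linarith)]; simp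
      have h8 := integral_mono (hgc.sq.int.sub hhc.sq.int)
        ((integrable_indicator_iff measurableSet_ball).2 (integrableOn_const (C := L * δ * (2 * M)) hKfin)) hpt
      rw [integral_indicator measurableSet_ball, setIntegral_const, smul_eq_mul] at h8
      have h9 : ∫ x, (g x ^ 2 - h x ^ 2) = (∫ x, g x ^ 2) - ∫ x, h x ^ 2 := integral_sub hgc.sq.int hhc.sq.int
      have h10 : volume.real (ball (0 : E N) (ρ + 2)) = K := rfl
      rw [h10] at h8
      change ∫ x, (g x ^ 2 - h x ^ 2) ≤ _ at h8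
      rw [h9] at h8
      linarith
    calc (R₀ / (ρ + 2 * δ)) ^ 2 * ((∫ x, g x ^ 2) - L * δ * (2 * M) * K) ≤ (R₀ / (ρ + 2 * δ)) ^ 2 * ∫ x, h x ^ 2 :=
          mul_le_mul_of_nonneg_left hdiff (by positivity)
      _ ≤ ∫ x, ‖fderiv ℝ h x‖ ^ 2 := hb
      _ ≤ A := hgr
  -- pass to the limit
  have hlim : Tendsto (fun δ : ℝ => (R₀ / (ρ + 2 * δ)) ^ 2 * ((∫ x, g x ^ 2) - L * δ * (2 * M) * K)) (𝓝[>] 0)
      (𝓝 ((R₀ / (ρ + 2 * 0)) ^ 2 * ((∫ x, g x ^ 2) - L * 0 * (2 * M) * K))) := by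
    apply tendsto_nhdsWithin_of_tendsto_nhds
    apply ContinuousAt.tendsto
    apply ContinuousAt.mul
    · apply ContinuousAt.pow
      apply ContinuousAt.div continuousAt_const (by fun_prop)
      simp [hρ.ne']
    · fun_prop
  have hfin := le_of_tendsto hlim (by
    have : ∀ᶠ δ : ℝ in 𝓝[>] 0, δ < 1 := by
      apply mem_nhdsWithin_of_mem_nhds
      exact Iio_mem_nhds one_pos
    filter_upwards [this, self_mem_nhdsWithin] with δ h1 h2
    exact key δ h2 h1)
  simp only [mul_zero, add_zero, zero_mul, sub_zero] at hfin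
  rw [← hg.sq]
  exact hfin

/-- a bounded Lipschitz majorant structure for `|f|` -/
theorem adm_abs {N : ℕ} {f : E N → ℝ} (hf : ContDiff ℝ 1 f) (hc : HasCompactSupport f) :
    ∃ L M R, Adm L M R (fun x => |f x|) := by
  obtain ⟨K, hK⟩ := (hf.continuous_fderiv (by simp)).bounded_above_of_compact_support (hc.fderiv (𝕜 := ℝ))
  obtain ⟨M, hM⟩ := hf.continuous.bounded_above_of_compact_support hc
  obtain ⟨r, hr⟩ := hc.isBounded.subset_closedBall (0 : E N)
  have hK0 : 0 ≤ K := (norm_nonneg _).trans (hK 0)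
  refine ⟨K, M, r, hK0, ?_, fun x => abs_nonneg _, fun x => ?_, fun x hx => ?_⟩
  · intro x y
    have := Convex.norm_image_sub_le_of_norm_fderiv_le (𝕜 := ℝ) (f := f) (s := univ) (C := K) (x := y) (y := x)
      (fun z _ => hf.differentiable (by simp) z) (fun z _ => hK z) convex_univ (mem_univ _) (mem_univ _)
    rw [dist_eq_norm]
    rw [Real.norm_eq_abs] at this
    exact (abs_abs_sub_abs_le_abs_sub _ _).trans this
  · have := hM x; rwa [Real.norm_eq_abs] at this
  · have : f x = 0 := by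
      by_contra hne
      have h1 := hr (subset_tsupport _ hne)
      rw [mem_closedBall_zero_iff] at h1
      linarith
    simp only [this, abs_zero]

/-- **Faber–Krahn inequality** for compactly supported `C¹` functions. -/
theorem faber_krahn (N : ℕ) (hN : 2 ≤ N) (F : ℝ → ℝ) (R₀ : ℝ) (hG : Ground N F R₀)
    {f : E N → ℝ} (hf : ContDiff ℝ 1 f) (hc : HasCompactSupport f)
    {ρ : ℝ} (hρ : 0 < ρ) (hvol : volume (Function.support f) ≤ volume (ball (0 : E N) ρ)) :
    (R₀ / ρ) ^ 2 * ∫ x, f x ^ 2 ≤ ∫ x, ‖fderiv ℝ f x‖ ^ 2 := by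
  have : NeZero N := ⟨by omega⟩
  obtain ⟨e, he⟩ : ∃ e : E N, ‖e‖ = 1 := ⟨EuclideanSpace.single 0 1, by simp⟩
  obtain ⟨L, M, R, hadm⟩ := adm_abs hf hc
  have hcc : CC f := ⟨hf.continuous, hc⟩
  have h1 : (R₀ / ρ) ^ 2 * ∫ x, |f x| ^ 2 ≤ ∫ x, ‖fderiv ℝ f x‖ ^ 2 := by
    apply fk_lip N hN F R₀ hG he hadm _ hρ
    · refine (measure_mono fun x hx => ?_).trans hvol
      exact abs_pos.1 hx
    · intro s hs0 hs1
      exact (En_mono_of_Tr hcc.abs hcc (Tr_abs_le hcc) s).trans (En_le he hf hc s)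
  simpa only [sq_abs] using h1

end Pool.Agent.H793R2.FK
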