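import Pool.Agent.H793R2.FK.Pol

set_option autoImplicit false
open MeasureTheory Filter Topology Metric Set

namespace Pool.Agent.H793R2.FK

set_option linter.unusedSectionVars false
set_option linter.unusedVariables false
variable {V : Type*} [NormedAddCommGroup V] [InnerProductSpace ℝ V]

/-- nonnegative bounded Lipschitz functions supported in a ball -/
structure Adm (L M R : ℝ) (f : V → ℝ) : Prop where
  L0 : 0 ≤ L
  lip : ∀ x y, |f x - f y| ≤ L * dist x y
  nn : ∀ x, 0 ≤ f x
  bd : ∀ x, f x ≤ M
  supp : ∀ x, R < ‖x‖ → f x = 0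

theorem Adm.cont {L M R : ℝ} {f : V → ℝ} (h : Adm L M R f) : Continuous f := by
  have : LipschitzWith (Real.toNNReal L) f := by
    apply LipschitzWith.of_dist_le_mul
    intro x y
    rw [Real.dist_eq, Real.coe_toNNReal _ h.L0]
    exact h.lip x y
  exact this.continuous

theorem Adm.pol {L M R : ℝ} {f : V → ℝ} (h : Adm L M R f) {n : V} (hn : ‖n‖ = 1) {c : ℝ} (hc : 0 ≤ c) :
    Adm L M R (pol n c f) :=
  ⟨h.L0, pol_lip hn h.L0 h.lip, pol_nonneg hn h.nn, pol_bd hn h.bd, pol_supp hn hc h.nn h.supp⟩

section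
variable [FiniteDimensional ℝ V]

theorem Adm.comp {L M R : ℝ} {f : V → ℝ} (h : Adm L M R f) : HasCompactSupport f := by
  have : ProperSpace V := FiniteDimensional.proper ℝ V
  apply HasCompactSupport.intro (isCompact_closedBall (0 : V) R)
  intro x hx
  apply h.supp
  rwa [mem_closedBall, dist_zero_right, not_le] at hx

variable [MeasurableSpace V] [BorelSpace V]

theorem Adm.int {L M R : ℝ} {f : V → ℝ} (h : Adm L M R f) : Integrable f :=
  h.cont.integrable_of_hasCompactSupport h.comp

theorem Adm.int_comp {L M R : ℝ} {f : V → ℝ} (h : Adm L M R f) {φ : ℝ → ℝ} (hφ : Continuous φ)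
    (h0 : φ 0 = 0) : Integrable (fun x => φ (f x)) :=
  (hφ.comp h.cont).integrable_of_hasCompactSupport (h.comp.comp_left h0)

theorem Adm.int_mul {L M R : ℝ} {f : V → ℝ} (h : Adm L M R f) {g : V → ℝ} (hg : Continuous g) :
    Integrable (fun x => f x * g x) :=
  (h.cont.mul hg).integrable_of_hasCompactSupport h.comp.mul_right

/-- the kernel -/
noncomputable def ker (s : ℝ) (x y : V) : ℝ := if dist x y < s then 1 else 0

/-- the interaction functional -/
noncomputable def J (s : ℝ) (f : V → ℝ) : ℝ :=
  ∫ p : V × V, f p.1 * f p.2 * ker s p.1 p.2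

omit [FiniteDimensional ℝ V] [MeasurableSpace V] [BorelSpace V] in
theorem ker_nn (s : ℝ) (x y : V) : 0 ≤ ker s x y := by unfold ker; split_ifs <;> norm_num

omit [FiniteDimensional ℝ V] [MeasurableSpace V] [BorelSpace V] in
theorem ker_le (s : ℝ) (x y : V) : ker s x y ≤ 1 := by unfold ker; split_ifs <;> norm_num

theorem ker_meas (s : ℝ) : Measurable (fun p : V × V => ker s p.1 p.2) := by
  unfold ker
  exact Measurable.ite (measurableSet_lt (measurable_fst.dist measurable_snd) measurable_const)
    measurable_const measurable_const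

theorem J_int {L M R : ℝ} {f g : V → ℝ} (s : ℝ) (hf : Adm L M R f) (hg : Adm L M R g) :
    Integrable (fun p : V × V => f p.1 * g p.2 * ker s p.1 p.2) := by
  have h1 : Integrable (fun p : V × V => f p.1 * g p.2) := hf.int.mul_prod hg.int
  refine h1.mul_bdd (c := 1) (ker_meas s).aestronglyMeasurable (Eventually.of_forall fun p => ?_)
  rw [Real.norm_of_nonneg (ker_nn _ _ _)]
  exact ker_le _ _ _

theorem mp_integral {X : Type*} [MeasurableSpace X] {μ : Measure X} {h : X → X}
    (hh : MeasurePreserving h μ μ) {D : X → ℝ} (hD : Integrable D μ) :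
    ∫ x, D (h x) ∂μ = ∫ x, D x ∂μ ∧ Integrable (fun x => D (h x)) μ := by
  constructor
  · conv_rhs => rw [← hh.map_eq]
    rw [integral_map hh.measurable.aemeasurable]
    rw [hh.map_eq]; exact hD.aestronglyMeasurable
  · exact (hh.integrable_comp hD.aestronglyMeasurable).2 hD

omit [FiniteDimensional ℝ V] [MeasurableSpace V] [BorelSpace V] in
theorem alg_aux (a a' b b' : ℝ) : a * b + a' * b' ≤ max a a' * max b b' + min a a' * min b b' ∧
    max a a' * min b b' + min a a' * max b b' ≤ a * b + a' * b' := by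
  rcases le_total a a' with h | h <;> rcases le_total b b' with h2 | h2 <;>
  simp only [max_eq_left h, max_eq_right h, min_eq_left h, min_eq_right h, max_eq_left h2,
    max_eq_right h2, min_eq_left h2, min_eq_right h2] <;>
  constructor <;> nlinarith [mul_nonneg (sub_nonneg.2 h) (sub_nonneg.2 h2)]

omit [FiniteDimensional ℝ V] [MeasurableSpace V] [BorelSpace V] in
theorem four_sum {n : V} (hn : ‖n‖ = 1) (c s : ℝ) (f : V → ℝ) (x y : V) :
    f x * f y * ker s x y + f (rf n c x) * f y * ker s (rf n c x) y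
      + f x * f (rf n c y) * ker s x (rf n c y)
      + f (rf n c x) * f (rf n c y) * ker s (rf n c x) (rf n c y)
    ≤ pol n c f x * pol n c f y * ker s x y
      + pol n c f (rf n c x) * pol n c f y * ker s (rf n c x) y
      + pol n c f x * pol n c f (rf n c y) * ker s x (rf n c y)
      + pol n c f (rf n c x) * pol n c f (rf n c y) * ker s (rf n c x) (rf n c y) := by
  have k1 : ker s (rf n c x) (rf n c y) = ker s x y := by
    unfold ker; rw [dist_eq_norm, norm_rf_sub_rf hn, ← dist_eq_norm]
  have k2 : ker s (rf n c x) y = ker s x (rf n c y) := by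
    unfold ker; rw [dist_eq_norm, norm_rf_sub hn, ← dist_eq_norm]
  rw [k1, k2]
  have hd := norm_sub_rf_sq hn c x y
  -- comparison of kernels
  have kle : 0 ≤ sd n c x * sd n c y → ker s x (rf n c y) ≤ ker s x y := by
    intro h
    have h1 : dist x y ≤ dist x (rf n c y) := by
      rw [dist_eq_norm, dist_eq_norm]
      apply le_of_sq_le_sq' _ (norm_nonneg _)
      rw [hd]; linarith
    unfold ker
    by_cases h2 : dist x (rf n c y) < s
    · rw [if_pos h2, if_pos (h1.trans_lt h2)]
    · rw [if_neg h2]; split_ifs <;> norm_num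
  have kge : sd n c x * sd n c y ≤ 0 → ker s x y ≤ ker s x (rf n c y) := by
    intro h
    have h1 : dist x (rf n c y) ≤ dist x y := by
      rw [dist_eq_norm, dist_eq_norm]
      apply le_of_sq_le_sq' _ (norm_nonneg _)
      rw [hd]; linarith
    unfold ker
    by_cases h2 : dist x y < s
    · rw [if_pos h2, if_pos (h1.trans_lt h2)]
    · rw [if_neg h2]; split_ifs <;> norm_num
  set κ := ker s x y
  set κ' := ker s x (rf n c y)
  obtain ⟨A1, A2⟩ := alg_aux (f x) (f (rf n c x)) (f y) (f (rf n c y))
  set a := f x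
  set a' := f (rf n c x)
  set b := f y
  set b' := f (rf n c y)
  have sa : max a a' + min a a' = a + a' := max_add_min _ _
  have sb : max b b' + min b b' = b + b' := max_add_min _ _
  rcases le_total (sd n c x) 0 with hx | hx <;> rcases le_total (sd n c y) 0 with hy | hy
  · rw [pol_of_neg hx, pol_of_neg hy, pol_rf_of_neg hn hx, pol_rf_of_neg hn hy]
    have hk := kle (mul_nonneg_of_nonpos_of_nonpos hx hy)
    change _ ≤ max a a' * max b b' * κ + min a a' * max b b' * κ' + max a a' * min b b' * κ' + min a a' * min b b' * κ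
    have e : (max a a' + min a a') * (max b b' + min b b') = (a + a') * (b + b') := by rw [sa, sb]
    have h3 : κ' * ((max a a' + min a a') * (max b b' + min b b')) = κ' * ((a + a') * (b + b')) := by rw [e]
    linarith [mul_nonneg (sub_nonneg.2 hk) (sub_nonneg.2 A1)]
  · rw [pol_of_neg hx, pol_of_nonneg hy, pol_rf_of_neg hn hx, pol_rf_of_nonneg hn hy]
    have hk := kge (mul_nonpos_of_nonpos_of_nonneg hx hy)
    change _ ≤ max a a' * min b b' * κ + min a a' * min b b' * κ' + max a a' * max b b' * κ' + min a a' * max b b' * κ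
    have e : (max a a' + min a a') * (max b b' + min b b') = (a + a') * (b + b') := by rw [sa, sb]
    have h3 : κ' * ((max a a' + min a a') * (max b b' + min b b')) = κ' * ((a + a') * (b + b')) := by rw [e]
    linarith [mul_nonneg (sub_nonneg.2 hk) (sub_nonneg.2 A2)]
  · rw [pol_of_nonneg hx, pol_of_neg hy, pol_rf_of_nonneg hn hx, pol_rf_of_neg hn hy]
    have hk := kge (mul_nonpos_of_nonneg_of_nonpos hx hy)
    change _ ≤ min a a' * max b b' * κ + max a a' * max b b' * κ' + min a a' * min b b' * κ' + max a a' * min b b' * κ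
    have e : (max a a' + min a a') * (max b b' + min b b') = (a + a') * (b + b') := by rw [sa, sb]
    have h3 : κ' * ((max a a' + min a a') * (max b b' + min b b')) = κ' * ((a + a') * (b + b')) := by rw [e]
    linarith [mul_nonneg (sub_nonneg.2 hk) (sub_nonneg.2 A2)]
  · rw [pol_of_nonneg hx, pol_of_nonneg hy, pol_rf_of_nonneg hn hx, pol_rf_of_nonneg hn hy]
    have hk := kle (mul_nonneg hx hy)
    change _ ≤ min a a' * min b b' * κ + max a a' * min b b' * κ' + min a a' * max b b' * κ' + max a a' * max b b' * κ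
    have e : (max a a' + min a a') * (max b b' + min b b') = (a + a') * (b + b') := by rw [sa, sb]
    have h3 : κ' * ((max a a' + min a a') * (max b b' + min b b')) = κ' * ((a + a') * (b + b')) := by rw [e]
    linarith [mul_nonneg (sub_nonneg.2 hk) (sub_nonneg.2 A1)]
where
  le_of_sq_le_sq' {a b : ℝ} (h : a ^ 2 ≤ b ^ 2) (hb : 0 ≤ b) : a ≤ b :=
    (abs_le_of_sq_le_sq' h hb).2

/-- polarization does not decrease the interaction -/
theorem J_pol {L M R : ℝ} {f : V → ℝ} (hf : Adm L M R f) {n : V} (hn : ‖n‖ = 1) {c : ℝ} (hc : 0 ≤ c)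
    (s : ℝ) : J s f ≤ J s (pol n c f) := by
  have key : ∀ g : V → ℝ, Adm L M R g → 4 * J s g = ∫ p : V × V,
      (g p.1 * g p.2 * ker s p.1 p.2 + g (rf n c p.1) * g p.2 * ker s (rf n c p.1) p.2
      + g p.1 * g (rf n c p.2) * ker s p.1 (rf n c p.2)
      + g (rf n c p.1) * g (rf n c p.2) * ker s (rf n c p.1) (rf n c p.2)) ∧
      Integrable (fun p : V × V =>
      (g p.1 * g p.2 * ker s p.1 p.2 + g (rf n c p.1) * g p.2 * ker s (rf n c p.1) p.2
      + g p.1 * g (rf n c p.2) * ker s p.1 (rf n c p.2)
      + g (rf n c p.1) * g (rf n c p.2) * ker s (rf n c p.1) (rf n c p.2))) := by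
    intro g hg
    have h0 := J_int s hg hg
    have m1 := (mp_rf hn c).prod (MeasurePreserving.id (volume : Measure V))
    have m2 := (MeasurePreserving.id (volume : Measure V)).prod (mp_rf hn c)
    have m3 := (mp_rf hn c).prod (mp_rf hn c)
    obtain ⟨i1, j1⟩ := mp_integral (μ := (volume : Measure V).prod volume) m1 h0
    obtain ⟨i2, j2⟩ := mp_integral (μ := (volume : Measure V).prod volume) m2 h0
    obtain ⟨i3, j3⟩ := mp_integral (μ := (volume : Measure V).prod volume) m3 h0
    simp only [Prod.map, id] at i1 i2 i3 j1 j2 j3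
    change ∫ p : V × V, g (rf n c p.1) * g p.2 * ker s (rf n c p.1) p.2 = J s g at i1
    change ∫ p : V × V, g p.1 * g (rf n c p.2) * ker s p.1 (rf n c p.2) = J s g at i2
    change ∫ p : V × V, g (rf n c p.1) * g (rf n c p.2) * ker s (rf n c p.1) (rf n c p.2) = J s g at i3
    constructor
    · have a1 := integral_add ((h0.add j1).add j2) j3
      have a2 := integral_add (h0.add j1) j2
      have a3 := integral_add h0 j1
      simp only [Pi.add_apply] at a1 a2 a3
      change _ = ∫ p : V × V, _ ∂(volume.prod volume)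
      change ∫ p : V × V, _ ∂(volume.prod volume) = ∫ p : V × V, _ ∂(volume.prod volume) + _ at a1
      rw [a1]
      change ∫ p : V × V, _ ∂(volume.prod volume) = ∫ p : V × V, _ ∂(volume.prod volume) + _ at a2
      rw [a2]
      change ∫ p : V × V, _ ∂(volume.prod volume) = ∫ p : V × V, _ ∂(volume.prod volume) + _ at a3
      rw [a3]
      rw [i1, i2, i3]
      change _ = J s g + _ + _ + _
      ring
    · exact ((h0.add j1).add j2).add j3
  obtain ⟨e1, I1⟩ := key f hf
  obtain ⟨e2, I2⟩ := key _ (hf.pol hn hc)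
  have := integral_mono I1 I2 (fun p => four_sum hn c s f p.1 p.2)
  rw [← e1, ← e2] at this
  linarith

/-- equimeasurability -/
theorem pol_integral {L M R : ℝ} {f : V → ℝ} (hf : Adm L M R f) {n : V} (hn : ‖n‖ = 1) {c : ℝ}
    (hc : 0 ≤ c) {φ : ℝ → ℝ} (hφ : Continuous φ) (h0 : φ 0 = 0) :
    ∫ x, φ (pol n c f x) = ∫ x, φ (f x) := by
  obtain ⟨i1, j1⟩ := mp_integral (mp_rf hn c) (hf.int_comp hφ h0)
  obtain ⟨i2, j2⟩ := mp_integral (mp_rf hn c) ((hf.pol hn hc).int_comp hφ h0)
  have h : ∫ x, (φ (pol n c f x) + φ (pol n c f (rf n c x))) = ∫ x, (φ (f x) + φ (f (rf n c x))) :=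
    integral_congr_ae (Eventually.of_forall fun x => pol_sum hn c f φ x)
  rw [integral_add ((hf.pol hn hc).int_comp hφ h0) j2, integral_add (hf.int_comp hφ h0) j1, i1, i2] at h
  linarith

/-- measure of superlevel sets -/
theorem pol_level {f : V → ℝ} (hf : Continuous f) {n : V} (hn : ‖n‖ = 1) {c : ℝ}
    (hp : Continuous (pol n c f)) (t : ℝ) :
    volume {x | t < pol n c f x} = volume {x | t < f x} := by
  have hm : ∀ g : V → ℝ, Continuous g → MeasurableSet {x | t < g x} := fun g hg =>
    (isOpen_lt continuous_const hg).measurableSet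
  -- two pieces
  have split : ∀ g : V → ℝ, Continuous g → volume {x | t < g x} =
      volume ({x | t < g x} ∩ {x | sd n c x < 0}) + (volume ({x | t < g x} ∩ {x | sd n c x = 0})
        + volume ({x | t < g (rf n c x)} ∩ {x | sd n c x < 0})) := by
    intro g hg
    have ms1 : MeasurableSet {x : V | sd n c x < 0} := (isOpen_lt (continuous_sd n c) continuous_const).measurableSet
    have ms2 : MeasurableSet {x : V | sd n c x = 0} := (isClosed_eq (continuous_sd n c) continuous_const).measurableSet
    have ms3 : MeasurableSet {x : V | 0 < sd n c x} := (isOpen_lt continuous_const (continuous_sd n c)).measurableSet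
    have e3 : volume ({x | t < g (rf n c x)} ∩ {x | sd n c x < 0}) = volume ({x | t < g x} ∩ {x | 0 < sd n c x}) := by
      rw [← (mp_rf hn c).measure_preimage ((hm g hg).inter ms3).nullMeasurableSet]
      congr 1
      ext x
      simp only [mem_inter_iff, mem_ofPred_eq, mem_preimage, sd_rf hn]
      constructor
      · rintro ⟨h1, h2⟩; exact ⟨h1, by linarith⟩
      · rintro ⟨h1, h2⟩; exact ⟨h1, by linarith⟩
    rw [e3]
    have hu : {x | t < g x} = ({x | t < g x} ∩ {x | sd n c x < 0}) ∪ (({x | t < g x} ∩ {x | sd n c x = 0}) ∪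
        ({x | t < g x} ∩ {x | 0 < sd n c x})) := by
      ext x
      simp only [mem_union, mem_inter_iff, mem_ofPred_eq]
      rcases lt_trichotomy (sd n c x) 0 with h | h | h
      · simp [h, h.ne, h.not_gt]
      · simp [h]
      · simp [h, h.ne', h.not_gt]
    conv_lhs => rw [hu]
    rw [measure_union, measure_union]
    · rw [Set.disjoint_left]
      rintro x ⟨-, hx1⟩ ⟨-, hx2⟩
      simp only [mem_ofPred_eq] at hx1 hx2
      linarith
    · exact (hm g hg).inter ms3
    · rw [Set.disjoint_left]
      rintro x ⟨-, hx1⟩ (⟨-, hx2⟩ | ⟨-, hx2⟩) <;> simp only [mem_ofPred_eq] at hx1 hx2 <;> linarith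
    · exact ((hm g hg).inter ms2).union ((hm g hg).inter ms3)
  rw [split f hf, split _ hp]
  have e2 : {x | t < pol n c f x} ∩ {x | sd n c x = 0} = {x | t < f x} ∩ {x | sd n c x = 0} := by
    ext x
    simp only [mem_inter_iff, mem_ofPred_eq]
    constructor
    · rintro ⟨h1, h2⟩
      refine ⟨?_, h2⟩
      rw [pol_of_neg h2.le, rf_eq_self h2, max_self] at h1
      exact h1
    · rintro ⟨h1, h2⟩
      refine ⟨?_, h2⟩
      rw [pol_of_neg h2.le, rf_eq_self h2, max_self]
      exact h1
  rw [e2]
  have e4 : volume ({x | t < pol n c f x} ∩ {x | sd n c x < 0}) + volume ({x | t < pol n c f (rf n c x)} ∩ {x | sd n c x < 0})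
      = volume ({x | t < f x} ∩ {x | sd n c x < 0}) + volume ({x | t < f (rf n c x)} ∩ {x | sd n c x < 0}) := by
    have ms1 : MeasurableSet {x : V | sd n c x < 0} := (isOpen_lt (continuous_sd n c) continuous_const).measurableSet
    have hfr : Continuous (fun x => f (rf n c x)) := hf.comp (continuous_rf n c)
    have a1 : {x | t < pol n c f x} ∩ {x | sd n c x < 0} =
        ({x | t < f x} ∩ {x | sd n c x < 0}) ∪ ({x | t < f (rf n c x)} ∩ {x | sd n c x < 0}) := by
      ext x
      simp only [mem_inter_iff, mem_union, mem_ofPred_eq]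
      constructor
      · rintro ⟨h1, h2⟩
        rw [pol_of_neg h2.le, lt_max_iff] at h1
        rcases h1 with h1 | h1
        · exact Or.inl ⟨h1, h2⟩
        · exact Or.inr ⟨h1, h2⟩
      · rintro (⟨h1, h2⟩ | ⟨h1, h2⟩)
        · exact ⟨by rw [pol_of_neg h2.le, lt_max_iff]; exact Or.inl h1, h2⟩
        · exact ⟨by rw [pol_of_neg h2.le, lt_max_iff]; exact Or.inr h1, h2⟩
    have a2 : {x | t < pol n c f (rf n c x)} ∩ {x | sd n c x < 0} =
        ({x | t < f x} ∩ {x | sd n c x < 0}) ∩ ({x | t < f (rf n c x)} ∩ {x | sd n c x < 0}) := by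
      ext x
      simp only [mem_inter_iff, mem_ofPred_eq]
      constructor
      · rintro ⟨h1, h2⟩
        rw [pol_rf_of_neg hn h2.le, lt_min_iff] at h1
        exact ⟨⟨h1.1, h2⟩, ⟨h1.2, h2⟩⟩
      · rintro ⟨⟨h1, h2⟩, ⟨h3, -⟩⟩
        exact ⟨by rw [pol_rf_of_neg hn h2.le, lt_min_iff]; exact ⟨h1, h3⟩, h2⟩
    rw [a1, a2, measure_union_add_inter _ ((hm _ hfr).inter ms1)]
  generalize volume ({x | t < f x} ∩ {x | sd n c x = 0}) = A
  calc _ = (volume ({x | t < pol n c f x} ∩ {x | sd n c x < 0}) + volume ({x | t < pol n c f (rf n c x)} ∩ {x | sd n c x < 0})) + A := by ring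
    _ = _ := by rw [e4]; ring

/-- the moment decreases strictly unless `f` is already polarized -/
theorem moment_pol {L M R : ℝ} {f : V → ℝ} (hf : Adm L M R f) {n : V} (hn : ‖n‖ = 1) {c : ℝ}
    (hc : 0 < c) (h : ∫ x, f x * ‖x‖ ^ 2 ≤ ∫ x, pol n c f x * ‖x‖ ^ 2) : pol n c f = f := by
  have hcn : Continuous (fun x : V => ‖x‖ ^ 2) := by fun_prop
  have hp := hf.pol hn hc.le
  set D : V → ℝ := fun x => f x * ‖x‖ ^ 2 - pol n c f x * ‖x‖ ^ 2 with hD
  have hDi : Integrable D := (hf.int_mul hcn).sub (hp.int_mul hcn)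
  have hDs : ∫ x, D x ≤ 0 := by
    rw [hD, integral_sub (hf.int_mul hcn) (hp.int_mul hcn)]; linarith
  obtain ⟨i1, j1⟩ := mp_integral (mp_rf hn c) hDi
  have hpt : ∀ x, D x + D (rf n c x) = (f x - pol n c f x) * (4 * c * sd n c x) := by
    intro x
    have h1 := pol_sum hn c f id x
    simp only [id] at h1
    simp only [hD]
    rw [norm_sq_rf hn]
    have h2 : pol n c f (rf n c x) = f x + f (rf n c x) - pol n c f x := by linarith
    rw [h2]; ring
  have hnn : ∀ x, 0 ≤ D x + D (rf n c x) := by
    intro x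
    rw [hpt]
    rcases le_total (sd n c x) 0 with hx | hx
    · have : f x - pol n c f x ≤ 0 := by
        rw [pol_of_neg hx]; linarith [le_max_left (f x) (f (rf n c x))]
      exact mul_nonneg_of_nonpos_of_nonpos this (mul_nonpos_of_nonneg_of_nonpos (by positivity) hx)
    · have : 0 ≤ f x - pol n c f x := by
        rw [pol_of_nonneg hx]; linarith [min_le_left (f x) (f (rf n c x))]
      positivity
  have hcont : Continuous (fun x => D x + D (rf n c x)) := by
    have hDc : Continuous D := (hf.cont.mul hcn).sub (hp.cont.mul hcn)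
    exact hDc.add (hDc.comp (continuous_rf n c))
  have hz : ∫ x, (D x + D (rf n c x)) = 0 := by
    apply le_antisymm
    · rw [integral_add hDi j1, i1]; linarith
    · exact integral_nonneg hnn
  have hae := (integral_eq_zero_iff_of_nonneg hnn (hDi.add j1)).1 hz
  have hall : (fun x => D x + D (rf n c x)) = 0 := by
    exact (hcont.ae_eq_iff_eq volume continuous_zero).1 hae
  funext x
  have hx0 := congrFun hall x
  simp only [Pi.zero_apply] at hx0
  rw [hpt] at hx0
  by_cases hs : sd n c x = 0
  · rw [pol_of_neg hs.le, rf_eq_self hs, max_self]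
  · have : f x - pol n c f x = 0 := by
      rcases mul_eq_zero.1 hx0 with h1 | h1
      · exact h1
      · exfalso
        have : (4 * c) ≠ 0 := by positivity
        exact (mul_ne_zero this hs) h1
    linarith

end

end Pool.Agent.H793R2.FK
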