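import Pool.Agent.H793R2.FK.Mom

set_option autoImplicit false
open MeasureTheory Filter Topology Metric Set

namespace Pool.Agent.H793R2.FK

set_option linter.unusedSectionVars false
set_option linter.unusedVariables false
variable {V : Type*} [NormedAddCommGroup V] [InnerProductSpace ℝ V] [FiniteDimensional ℝ V]
  [MeasurableSpace V] [BorelSpace V]

/-- mollification -/
noncomputable def moll (η g : V → ℝ) (x : V) : ℝ := ∫ t, η t * g (x - t)

theorem moll_conv (η g : V → ℝ) :
    moll η g = convolution η g (ContinuousLinearMap.lsmul ℝ ℝ) volume := by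
  funext x
  rw [convolution_def]
  rfl

theorem moll_int {η g : V → ℝ} (hη : CC η) (hg : CC g) (x : V) : Integrable (fun t => η t * g (x - t)) := by
  have h1 : Continuous (fun t => g (x - t)) := hg.1.comp (by fun_prop)
  exact (hη.1.mul h1).integrable_of_hasCompactSupport hη.2.mul_right

theorem moll_cc {η g : V → ℝ} (hη : CC η) (hg : CC g) : CC (moll η g) := by
  rw [moll_conv]
  constructor
  · exact hη.2.continuous_convolution_left _ hη.1 hg.int.locallyIntegrable
  · exact hη.2.convolution _ hg.2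

/-- Young's inequality in `L²` with a probability density -/
theorem moll_sq_le {η G : V → ℝ} (hη : CC η) (h0 : ∀ x, 0 ≤ η x) (h1 : ∫ x, η x = 1) (hG : CC G) :
    ∫ x, moll η G x ^ 2 ≤ ∫ x, G x ^ 2 := by
  have hpt : ∀ x, moll η G x ^ 2 ≤ moll η (fun y => G y ^ 2) x := by
    intro x
    set m := moll η G x with hm
    have h2 : 0 ≤ ∫ t, η t * (G (x - t) - m) ^ 2 := integral_nonneg fun t => mul_nonneg (h0 t) (sq_nonneg _)
    have e : ∀ t, η t * (G (x - t) - m) ^ 2 = η t * G (x - t) ^ 2 - 2 * m * (η t * G (x - t)) + m ^ 2 * η t := fun t => by ring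
    simp only [e] at h2
    rw [integral_add (f := fun t => η t * G (x - t) ^ 2 - 2 * m * (η t * G (x - t)))
      ((moll_int hη hG.sq x).sub ((moll_int hη hG x).const_mul _)) (hη.int.const_mul _),
      integral_sub (moll_int hη hG.sq x) ((moll_int hη hG x).const_mul _), integral_const_mul, integral_const_mul, h1] at h2
    change 0 ≤ moll η (fun y => G y ^ 2) x - 2 * m * moll η G x + m ^ 2 * 1 at h2
    rw [← hm] at h2
    linarith
  have h3 : ∫ x, moll η (fun y => G y ^ 2) x = ∫ x, G x ^ 2 := by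
    rw [moll_conv, integral_convolution _ hη.int hG.sq.int]
    rw [h1]; simp
  rw [← h3]
  exact integral_mono (moll_cc hη hG).sq.int (moll_cc hη hG.sq).int hpt

theorem Tr_moll {η g : V → ℝ} (hη : CC η) (h0 : ∀ x, 0 ≤ η x) (h1 : ∫ x, η x = 1) (hg : CC g) (z : V) :
    Tr (moll η g) z ≤ Tr g z := by
  have h2 : ∀ x, moll η g (x + z) - moll η g x = moll η (fun y => g (y + z) - g y) x := by
    intro x
    unfold moll
    rw [← integral_sub (moll_int hη hg (x + z)) (moll_int hη hg x)]
    congr 1; funext t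
    have : x + z - t = x - t + z := by abel
    rw [this]; ring
  unfold Tr
  simp only [h2]
  exact moll_sq_le hη h0 h1 ((hg.shift z).sub hg)

theorem moll_smooth {η g : V → ℝ} (hη : ContDiff ℝ (⊤ : ℕ∞) η) (hηc : HasCompactSupport η) (hg : CC g) :
    ContDiff ℝ (⊤ : ℕ∞) (moll η g) := by
  rw [moll_conv]
  exact hηc.contDiff_convolution_left _ hη hg.int.locallyIntegrable

theorem moll_zero {η g : V → ℝ} {δ ρ : ℝ} (hη : ∀ x, δ ≤ ‖x‖ → η x = 0) (hg : ∀ x, ρ < ‖x‖ → g x = 0)
    (x : V) (hx : ρ + δ ≤ ‖x‖) : moll η g x = 0 := by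
  unfold moll
  rw [← integral_zero V ℝ]
  congr 1; funext t
  rcases lt_or_ge ‖t‖ δ with h | h
  · have : ρ < ‖x - t‖ := by
      have := norm_sub_norm_le x t
      linarith
    rw [hg _ this, mul_zero]
  · rw [hη t h, zero_mul]

theorem moll_close {η g : V → ℝ} {δ L : ℝ} (hηc : CC η) (h0 : ∀ x, 0 ≤ η x) (h1 : ∫ x, η x = 1)
    (hη : ∀ x, δ ≤ ‖x‖ → η x = 0) (hgc : CC g) (hL : 0 ≤ L) (hg : ∀ x y, |g x - g y| ≤ L * dist x y) (x : V) :
    |moll η g x - g x| ≤ L * δ := by
  have h2 : moll η g x - g x = ∫ t, η t * (g (x - t) - g x) := by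
    have e : ∀ t, η t * (g (x - t) - g x) = η t * g (x - t) - g x * η t := fun t => by ring
    simp only [e]
    rw [integral_sub (moll_int hηc hgc x) (hηc.int.const_mul _), integral_const_mul, h1]
    unfold moll; ring
  rw [h2]
  have h3 : ∀ t, ‖η t * (g (x - t) - g x)‖ ≤ L * δ * η t := by
    intro t
    rw [norm_mul, Real.norm_of_nonneg (h0 t), Real.norm_eq_abs]
    rcases lt_or_ge ‖t‖ δ with h | h
    · have := hg (x - t) x
      rw [dist_eq_norm, sub_sub_cancel_left, norm_neg] at this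
      have h4 : |g (x - t) - g x| ≤ L * δ := this.trans (mul_le_mul_of_nonneg_left h.le hL)
      have := mul_le_mul_of_nonneg_left h4 (h0 t)
      linarith
    · rw [hη t h]; simp
  have h4 := norm_integral_le_of_norm_le (hηc.int.const_mul (L * δ)) (Eventually.of_forall h3)
  rw [integral_const_mul, h1, mul_one, Real.norm_eq_abs] at h4
  exact h4

/-- existence of mollifiers -/
theorem exists_eta (δ : ℝ) (hδ : 0 < δ) : ∃ η : V → ℝ, ContDiff ℝ (⊤ : ℕ∞) η ∧ CC η ∧ (∀ x, 0 ≤ η x) ∧
    ∫ x, η x = 1 ∧ ∀ x, δ ≤ ‖x‖ → η x = 0 := by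
  let φ : ContDiffBump (0 : V) := ⟨δ / 2, δ, by positivity, by linarith⟩
  refine ⟨φ.normed volume, φ.contDiff_normed, ⟨φ.continuous_normed, φ.hasCompactSupport_normed⟩, φ.nonneg_normed, φ.integral_normed, ?_⟩
  intro x hx
  have h1 := φ.support_normed_eq (μ := (volume : Measure V))
  by_contra hne
  have h2 : x ∈ Function.support (φ.normed volume) := hne
  rw [h1, mem_ball_zero_iff] at h2
  have : φ.rOut = δ := rfl
  linarith

end Pool.Agent.H793R2.FK
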