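import Pool.Agent.H793R2.FK.En

set_option autoImplicit false
open MeasureTheory Filter Topology Metric Set

namespace Pool.Agent.H793R2.FK

set_option linter.unusedSectionVars false
set_option linter.unusedVariables false
variable {V : Type*} [NormedAddCommGroup V] [InnerProductSpace ℝ V] [FiniteDimensional ℝ V]
  [MeasurableSpace V] [BorelSpace V]

theorem inner_sq_int (v : V) (s : ℝ) : IntegrableOn (fun z : V => (inner ℝ v z) ^ 2) (ball (0 : V) s) := by
  have : ProperSpace V := FiniteDimensional.proper ℝ V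
  have hc : Continuous (fun z : V => (inner ℝ v z) ^ 2) := by fun_prop
  exact (hc.continuousOn.integrableOn_compact (isCompact_closedBall (0 : V) s)).mono_set ball_subset_closedBall

theorem unit_moment {u w : V} (hu : ‖u‖ = 1) (hw : ‖w‖ = 1) (s : ℝ) :
    ∫ z in ball (0 : V) s, (inner ℝ u z) ^ 2 = ∫ z in ball (0 : V) s, (inner ℝ w z) ^ 2 := by
  by_cases huw : u = w
  · rw [huw]
  · have hd : 0 < ‖u - w‖ := norm_pos_iff.2 (sub_ne_zero.2 huw)
    set n : V := ‖u - w‖⁻¹ • (u - w) with hn'
    have hn : ‖n‖ = 1 := by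
      rw [hn', norm_smul, norm_inv, norm_norm, inv_mul_cancel₀ hd.ne']
    have hexp : ‖u - w‖ ^ 2 = 2 - 2 * inner ℝ u w := by
      rw [norm_sub_sq_real, hu, hw]; ring
    have h1 : inner ℝ n u = ‖u - w‖ / 2 := by
      rw [hn', inner_smul_left, inner_sub_left, real_inner_self_eq_norm_sq, hu]
      have : inner ℝ w u = inner ℝ u w := real_inner_comm _ _
      rw [this]
      simp only [conj_trivial]
      field_simp
      rw [hexp]; ring
    have h2 : inner ℝ n w = -(‖u - w‖ / 2) := by
      rw [hn', inner_smul_left, inner_sub_left, real_inner_self_eq_norm_sq, hw]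
      simp only [conj_trivial]
      field_simp
      rw [hexp]; ring
    have key : ∀ z, inner ℝ u (rf n 0 z) = inner ℝ w z := by
      intro z
      unfold rf
      rw [inner_sub_right, inner_smul_right, real_inner_comm n u, h1]
      have e : (u : V) = w + ‖u - w‖ • n := by
        rw [hn', smul_smul, mul_inv_cancel₀ hd.ne', one_smul]; abel
      have e2 : inner ℝ u z = inner ℝ w z + ‖u - w‖ * inner ℝ n z := by
        conv_lhs => rw [e]
        rw [inner_add_left, inner_smul_left]; simp
      rw [e2]; ring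
    have hind : ∀ v : V, ∫ z in ball (0 : V) s, (inner ℝ v z) ^ 2 =
        ∫ z, (ball (0 : V) s).indicator (fun z => (inner ℝ v z) ^ 2) z := fun v =>
      (integral_indicator measurableSet_ball).symm
    rw [hind u, hind w]
    have hi : Integrable ((ball (0 : V) s).indicator (fun z => (inner ℝ u z) ^ 2)) :=
      (integrable_indicator_iff measurableSet_ball).2 (inner_sq_int u s)
    rw [← (mp_integral (mp_rf hn 0) hi).1]
    apply integral_congr_ae
    refine Eventually.of_forall fun z => ?_
    simp only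
    have hnorm : ‖rf n 0 z‖ = ‖z‖ := by
      have := norm_sq_rf hn 0 z
      rw [mul_zero, zero_mul, sub_zero] at this
      exact (pow_left_inj₀ (norm_nonneg _) (norm_nonneg _) two_ne_zero).1 this
    by_cases hz : z ∈ ball (0 : V) s
    · rw [indicator_of_mem hz, indicator_of_mem (by rw [mem_ball_zero_iff] at hz ⊢; rwa [hnorm]), key]
    · rw [indicator_of_notMem hz, indicator_of_notMem (by rw [mem_ball_zero_iff] at hz ⊢; rwa [hnorm])]

/-- second moment of the ball of radius `s` in a fixed direction -/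
noncomputable def mom (e : V) (s : ℝ) : ℝ := ∫ z in ball (0 : V) s, (inner ℝ e z) ^ 2

theorem mom_clm {e : V} (he : ‖e‖ = 1) (s : ℝ) (A : V →L[ℝ] ℝ) :
    ∫ z in ball (0 : V) s, (A z) ^ 2 = mom e s * ‖A‖ ^ 2 := by
  set v := (InnerProductSpace.toDual ℝ V).symm A with hv
  have hA : ∀ z, A z = inner ℝ v z := fun z => by
    rw [hv, InnerProductSpace.toDual_symm_apply]
  have hnorm : ‖A‖ = ‖v‖ := by rw [hv, LinearIsometryEquiv.norm_map]
  simp only [hA, hnorm]
  by_cases h0 : v = 0
  · rw [h0]; simp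
  · have hvp : 0 < ‖v‖ := norm_pos_iff.2 h0
    set u : V := ‖v‖⁻¹ • v with hu'
    have hu : ‖u‖ = 1 := by rw [hu', norm_smul, norm_inv, norm_norm, inv_mul_cancel₀ hvp.ne']
    have hvu : v = ‖v‖ • u := by rw [hu', smul_smul, mul_inv_cancel₀ hvp.ne', one_smul]
    have h1 : ∀ z, (inner ℝ v z) ^ 2 = ‖v‖ ^ 2 * (inner ℝ u z) ^ 2 := fun z => by
      conv_lhs => rw [hvu]
      rw [inner_smul_left]; simp only [conj_trivial]; ring
    simp only [h1]
    rw [integral_const_mul, unit_moment hu he s]
    unfold mom; ring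

theorem mom_scale (e : V) {s : ℝ} (hs : 0 < s) :
    mom e s = s ^ (Module.finrank ℝ V + 2) * mom e 1 := by
  unfold mom
  have h := Measure.setIntegral_comp_smul_of_pos (volume : Measure V) (fun z => (inner ℝ e z) ^ 2) (ball (0 : V) 1) hs
  rw [smul_unitBall hs.ne', Real.norm_of_nonneg hs.le] at h
  have h2 : ∀ z : V, (inner ℝ e (s • z)) ^ 2 = s ^ 2 * (inner ℝ e z) ^ 2 := fun z => by
    rw [inner_smul_right]; ring
  simp only [h2] at h
  rw [integral_const_mul, smul_eq_mul] at h
  have hsp : (s ^ Module.finrank ℝ V) ≠ 0 := by positivity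
  have h3 : ∫ z in ball (0 : V) s, (inner ℝ e z) ^ 2 = s ^ Module.finrank ℝ V *
      (s ^ 2 * ∫ z in ball (0 : V) 1, (inner ℝ e z) ^ 2) := by
    rw [h]; field_simp
  rw [h3, pow_add]; ring

theorem mom_pos {e : V} (he : ‖e‖ = 1) : 0 < mom e 1 := by
  unfold mom
  rw [setIntegral_pos_iff_support_of_nonneg_ae (Eventually.of_forall fun z => sq_nonneg _) (inner_sq_int e 1)]
  have hopen : IsOpen (Function.support (fun z : V => (inner ℝ e z) ^ 2) ∩ ball (0 : V) 1) := by
    apply IsOpen.inter _ isOpen_ball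
    exact isOpen_ne_fun (by fun_prop) continuous_const
  refine hopen.measure_pos volume ?_
  refine ⟨(1/2 : ℝ) • e, ?_, ?_⟩
  · rw [Function.mem_support, inner_smul_right, real_inner_self_eq_norm_sq, he]; norm_num
  · rw [mem_ball_zero_iff, norm_smul, he]; norm_num

theorem CC.fderiv_norm {f : V → ℝ} (hf : ContDiff ℝ 1 f) (hc : HasCompactSupport f) :
    CC (fun x => ‖fderiv ℝ f x‖ ^ 2) := by
  refine ⟨(hf.continuous_fderiv (by simp)).norm.pow 2, ?_⟩
  exact (hc.fderiv (𝕜 := ℝ)).comp_left (g := fun A : V →L[ℝ] ℝ => ‖A‖ ^ 2) (by simp)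

/-- upper bound of the nonlocal energy -/
theorem En_le {e : V} (he : ‖e‖ = 1) {f : V → ℝ} (hf : ContDiff ℝ 1 f) (hc : HasCompactSupport f) (s : ℝ) :
    En s f ≤ mom e s * ∫ x, ‖fderiv ℝ f x‖ ^ 2 := by
  have : ProperSpace V := FiniteDimensional.proper ℝ V
  have hcc : CC f := ⟨hf.continuous, hc⟩
  have hN := CC.fderiv_norm hf hc
  have hcont : Continuous (fun p : V × V => (fderiv ℝ f p.1 p.2) ^ 2) := by
    have h1 : Continuous (fun p : V × V => fderiv ℝ f p.1) := (hf.continuous_fderiv (by simp)).comp continuous_fst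
    exact (h1.clm_apply continuous_snd).pow 2
  have hprod : Integrable (fun p : V × V => (fderiv ℝ f p.1 p.2) ^ 2)
      ((volume : Measure V).prod ((volume : Measure V).restrict (ball 0 s))) := by
    refine Integrable.mono' (g := fun p : V × V => ‖fderiv ℝ f p.1‖ ^ 2 * s ^ 2) ?_ hcont.aestronglyMeasurable ?_
    · apply Integrable.mul_prod (f := fun x : V => ‖fderiv ℝ f x‖ ^ 2) (g := fun _ : V => s ^ 2) hN.int
      exact integrableOn_const measure_ball_lt_top.ne
    · have hs : ∀ᵐ p : V × V ∂((volume : Measure V).prod ((volume : Measure V).restrict (ball 0 s))), p.2 ∈ ball (0 : V) s := by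
        have h0 : ∀ᵐ t ∂((volume : Measure V).restrict (ball 0 s)), t ∈ ball (0 : V) s := ae_restrict_mem measurableSet_ball
        exact Measure.quasiMeasurePreserving_snd.ae h0
      filter_upwards [hs] with p hp
      rw [mem_ball_zero_iff] at hp
      rw [Real.norm_of_nonneg (sq_nonneg _), ← sq_abs, ← mul_pow]
      apply pow_le_pow_left₀ (abs_nonneg _)
      rw [← Real.norm_eq_abs]
      exact ((fderiv ℝ f p.1).le_opNorm p.2).trans (mul_le_mul_of_nonneg_left hp.le (norm_nonneg _))
  calc En s f = ∫ z in ball (0 : V) s, Tr f z := rfl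
    _ ≤ ∫ z in ball (0 : V) s, ∫ x, (fderiv ℝ f x z) ^ 2 := by
        apply integral_mono (Tr_intOn hcc s) _ (fun z => Tr_le hf hc z)
        exact hprod.integral_prod_right
    _ = ∫ x, ∫ z in ball (0 : V) s, (fderiv ℝ f x z) ^ 2 := (integral_integral_swap (f := fun (x z : V) => (fderiv ℝ f x z) ^ 2) hprod).symm
    _ = ∫ x, mom e s * ‖fderiv ℝ f x‖ ^ 2 := by simp only [mom_clm he]
    _ = _ := integral_const_mul _ _

/-- lower bound of the gradient energy by the nonlocal ones -/
theorem grad_le {e : V} (he : ‖e‖ = 1) {f : V → ℝ} (hf : ContDiff ℝ 1 f) (hc : HasCompactSupport f) {A : ℝ}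
    (hA : ∀ s, 0 < s → s < 1 → En s f ≤ mom e s * A) : ∫ x, ‖fderiv ℝ f x‖ ^ 2 ≤ A := by
  have : ProperSpace V := FiniteDimensional.proper ℝ V
  have hcc : CC f := ⟨hf.continuous, hc⟩
  have hN := CC.fderiv_norm hf hc
  obtain ⟨K, hK⟩ := (hf.continuous_fderiv (by simp)).bounded_above_of_compact_support (hc.fderiv (𝕜 := ℝ))
  have hK0 : 0 ≤ K := (norm_nonneg _).trans (hK 0)
  have hlip : ∀ x y, |f x - f y| ≤ K * ‖x - y‖ := by
    intro x y
    have := Convex.norm_image_sub_le_of_norm_fderiv_le (𝕜 := ℝ) (f := f) (s := univ) (C := K) (x := y) (y := x)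
      (fun z _ => hf.differentiable (by simp) z) (fun z _ => hK z) convex_univ (mem_univ _) (mem_univ _)
    rwa [Real.norm_eq_abs] at this
  obtain ⟨r, hr⟩ := hc.isBounded.subset_closedBall (0 : V)
  set N := Module.finrank ℝ V with hNdef
  -- sequence of scales
  set s : ℕ → ℝ := fun k => 1 / ((k : ℝ) + 2) with hs
  have hs0 : ∀ k, 0 < s k := fun k => by simp only [hs]; positivity
  have hs1 : ∀ k, s k < 1 := fun k => by
    simp only [hs]; rw [div_lt_one (by positivity)]; linarith [(Nat.cast_nonneg k : (0:ℝ) ≤ k)]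
  have hslim : Tendsto s atTop (𝓝 0) := by
    have := tendsto_one_div_add_atTop_nhds_zero_nat (𝕜 := ℝ)
    have h2 := this.comp (tendsto_add_atTop_nat 1)
    refine h2.congr fun k => ?_
    simp only [hs, Function.comp]; push_cast; ring_nf
  -- rescaled energies
  have hresc : ∀ k, ∫ z in ball (0 : V) 1, Tr f (s k • z) / (s k) ^ 2 ≤ mom e 1 * A := by
    intro k
    have h := Measure.setIntegral_comp_smul_of_pos (volume : Measure V) (fun z => Tr f z) (ball (0 : V) 1) (hs0 k)
    rw [smul_unitBall (hs0 k).ne', Real.norm_of_nonneg (hs0 k).le, smul_eq_mul] at h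
    have h1 := hA (s k) (hs0 k) (hs1 k)
    rw [mom_scale e (hs0 k)] at h1
    rw [integral_div, h]
    change (s k ^ N)⁻¹ * En (s k) f / s k ^ 2 ≤ _
    have hp : 0 < s k ^ N := by have := hs0 k; positivity
    have hp2 : 0 < s k ^ 2 := by have := hs0 k; positivity
    rw [div_le_iff₀ hp2, inv_mul_le_iff₀ hp]
    calc En (s k) f ≤ _ := h1
      _ = _ := by rw [pow_add]; ring
  -- integrand on the product
  set Fk : ℕ → V × V → ℝ := fun k p => ((f (p.1 + s k • p.2) - f p.1) / s k) ^ 2 with hFk
  set μ : Measure (V × V) := (volume : Measure V).prod ((volume : Measure V).restrict (ball 0 1)) with hμ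
  have hs_ae : ∀ᵐ p : V × V ∂μ, p.2 ∈ ball (0 : V) 1 := by
    have h0 : ∀ᵐ t ∂((volume : Measure V).restrict (ball 0 1)), t ∈ ball (0 : V) 1 := ae_restrict_mem measurableSet_ball
    exact Measure.quasiMeasurePreserving_snd.ae h0
  have hFc : ∀ k, Continuous (Fk k) := by
    intro k
    simp only [hFk]
    have h1 : Continuous (fun p : V × V => f (p.1 + s k • p.2)) := hf.continuous.comp (by fun_prop)
    have h2 : Continuous (fun p : V × V => f p.1) := hf.continuous.comp continuous_fst
    exact ((h1.sub h2).div_const _).pow 2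
  set bnd : V × V → ℝ := fun p => (closedBall (0 : V) (r + 1)).indicator (fun _ => K ^ 2) p.1 * 1 with hbnd
  have hbi : Integrable bnd μ := by
    apply Integrable.mul_prod (f := fun x : V => (closedBall (0 : V) (r + 1)).indicator (fun _ => K ^ 2) x)
      (g := fun _ : V => (1:ℝ))
    · rw [integrable_indicator_iff measurableSet_closedBall]
      exact integrableOn_const measure_closedBall_lt_top.ne
    · exact integrableOn_const measure_ball_lt_top.ne
  have hFb : ∀ k, ∀ᵐ p ∂μ, ‖Fk k p‖ ≤ bnd p := by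
    intro k
    filter_upwards [hs_ae] with p hp
    rw [mem_ball_zero_iff] at hp
    simp only [hFk, hbnd, mul_one]
    have hsk := hs0 k
    rw [Real.norm_of_nonneg (sq_nonneg _)]
    by_cases hx : p.1 ∈ closedBall (0 : V) (r + 1)
    · rw [indicator_of_mem hx, ← sq_abs]
      apply pow_le_pow_left₀ (abs_nonneg _)
      rw [abs_div, abs_of_pos hsk, div_le_iff₀ hsk]
      refine (hlip _ _).trans ?_
      rw [add_sub_cancel_left, norm_smul, Real.norm_of_nonneg hsk.le]
      have : s k * ‖p.2‖ ≤ s k := mul_le_of_le_one_right hsk.le hp.le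
      exact mul_le_mul_of_nonneg_left this hK0
    · rw [indicator_of_notMem hx]
      have hz : ∀ w : V, ‖w‖ ≤ 1 → f (p.1 + w) = 0 := by
        intro w hw
        by_contra hne
        have h1 := hr (subset_tsupport _ hne)
        rw [mem_closedBall_zero_iff] at h1 hx
        apply hx
        calc ‖p.1‖ = ‖(p.1 + w) - w‖ := by congr 1; abel
          _ ≤ ‖p.1 + w‖ + ‖w‖ := norm_sub_le _ _
          _ ≤ r + 1 := add_le_add h1 hw
      have h1 := hz 0 (by simp)
      rw [add_zero] at h1
      have h2 := hz (s k • p.2) (by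
        rw [norm_smul, Real.norm_of_nonneg hsk.le]
        exact mul_le_one₀ (hs1 k).le (norm_nonneg _) hp.le)
      rw [h1, h2]; simp
  have hFi : ∀ k, Integrable (Fk k) μ := fun k => hbi.mono' (hFc k).aestronglyMeasurable (hFb k)
  have hlimpt : ∀ p : V × V, Tendsto (fun k => Fk k p) atTop (𝓝 ((fderiv ℝ f p.1 p.2) ^ 2)) := by
    intro p
    simp only [hFk]
    apply Tendsto.pow
    have h1 : HasDerivAt (fun t : ℝ => f (p.1 + t • p.2)) (fderiv ℝ f p.1 p.2) 0 := by
      have h2 : HasDerivAt (fun t : ℝ => p.1 + t • p.2) p.2 0 := by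
        have := ((hasDerivAt_id (0:ℝ)).smul_const p.2).const_add p.1
        simpa using this
      have h3 : HasFDerivAt f (fderiv ℝ f p.1) (p.1 + (0:ℝ) • p.2) := by
        rw [zero_smul, add_zero]
        exact ((hf.differentiable (by simp)) p.1).hasFDerivAt
      exact h3.comp_hasDerivAt (0:ℝ) h2
    have h4 := h1.tendsto_slope_zero
    have h5 : Tendsto s atTop (𝓝[≠] 0) := tendsto_nhdsWithin_iff.2 ⟨hslim, Eventually.of_forall fun k => (hs0 k).ne'⟩
    refine (h4.comp h5).congr fun k => ?_
    simp only [Function.comp, zero_add, zero_smul, add_zero, smul_eq_mul]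
    rw [div_eq_inv_mul]
  have hlim := tendsto_integral_of_dominated_convergence bnd (fun k => (hFc k).aestronglyMeasurable) hbi hFb
    (Eventually.of_forall hlimpt)
  -- identify
  have hFval : ∀ k, ∫ p, Fk k p ∂μ = ∫ z in ball (0 : V) 1, Tr f (s k • z) / (s k) ^ 2 := by
    intro k
    rw [hμ, integral_prod_symm _ (hFi k)]
    apply integral_congr_ae
    refine Eventually.of_forall fun z => ?_
    simp only [hFk, Tr]
    rw [← integral_div]
    congr 1; funext x
    rw [div_pow]
  have hdcont : Continuous (fun p : V × V => (fderiv ℝ f p.1 p.2) ^ 2) := by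
    have h1 : Continuous (fun p : V × V => fderiv ℝ f p.1) := (hf.continuous_fderiv (by simp)).comp continuous_fst
    exact (h1.clm_apply continuous_snd).pow 2
  have hli : Integrable (fun p : V × V => (fderiv ℝ f p.1 p.2) ^ 2) μ := by
    refine Integrable.mono' (g := fun p : V × V => ‖fderiv ℝ f p.1‖ ^ 2 * 1) ?_ hdcont.aestronglyMeasurable ?_
    · apply Integrable.mul_prod (f := fun x : V => ‖fderiv ℝ f x‖ ^ 2) (g := fun _ : V => (1:ℝ)) hN.int
      exact integrableOn_const measure_ball_lt_top.ne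
    · filter_upwards [hs_ae] with p hp
      rw [mem_ball_zero_iff] at hp
      rw [Real.norm_of_nonneg (sq_nonneg _), ← sq_abs, mul_one]
      apply pow_le_pow_left₀ (abs_nonneg _)
      rw [← Real.norm_eq_abs]
      exact ((fderiv ℝ f p.1).le_opNorm p.2).trans (mul_le_of_le_one_right (norm_nonneg _) hp.le)
  have hval : ∫ p, (fderiv ℝ f p.1 p.2) ^ 2 ∂μ = mom e 1 * ∫ x, ‖fderiv ℝ f x‖ ^ 2 := by
    rw [hμ, integral_prod _ hli]
    simp only [mom_clm he]
    exact integral_const_mul _ _
  rw [hval] at hlim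
  have hle : mom e 1 * ∫ x, ‖fderiv ℝ f x‖ ^ 2 ≤ mom e 1 * A :=
    le_of_tendsto hlim (Eventually.of_forall fun k => by rw [hFval k]; exact hresc k)
  exact le_of_mul_le_mul_left hle (mom_pos he)

end Pool.Agent.H793R2.FK
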