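import Pool.Agent.H793R2.FK.Refl

set_option autoImplicit false
open MeasureTheory Filter Topology Metric Set

namespace Pool.Agent.H793R2.FK

variable {V : Type*} [NormedAddCommGroup V] [InnerProductSpace ℝ V]

/-- polarization of `f` with respect to the half space `sd n c ≤ 0` -/
noncomputable def pol (n : V) (c : ℝ) (f : V → ℝ) (x : V) : ℝ :=
  if sd n c x ≤ 0 then max (f x) (f (rf n c x)) else min (f x) (f (rf n c x))

theorem pol_of_neg {n : V} {c : ℝ} {f : V → ℝ} {x : V} (h : sd n c x ≤ 0) :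
    pol n c f x = max (f x) (f (rf n c x)) := by unfold pol; rw [if_pos h]

theorem pol_of_pos {n : V} {c : ℝ} {f : V → ℝ} {x : V} (h : 0 < sd n c x) :
    pol n c f x = min (f x) (f (rf n c x)) := by unfold pol; rw [if_neg (not_le.2 h)]

theorem pol_of_nonneg {n : V} {c : ℝ} {f : V → ℝ} {x : V} (h : 0 ≤ sd n c x) :
    pol n c f x = min (f x) (f (rf n c x)) := by
  rcases h.eq_or_lt with h | h
  · rw [pol_of_neg h.symm.le, rf_eq_self h.symm]; simp
  · exact pol_of_pos h

theorem pol_rf_of_neg {n : V} (hn : ‖n‖ = 1) {c : ℝ} {f : V → ℝ} {x : V} (h : sd n c x ≤ 0) :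
    pol n c f (rf n c x) = min (f x) (f (rf n c x)) := by
  rw [pol_of_nonneg (by rw [sd_rf hn]; linarith), rf_rf hn, min_comm]

theorem pol_rf_of_nonneg {n : V} (hn : ‖n‖ = 1) {c : ℝ} {f : V → ℝ} {x : V} (h : 0 ≤ sd n c x) :
    pol n c f (rf n c x) = max (f x) (f (rf n c x)) := by
  rw [pol_of_neg (by rw [sd_rf hn]; linarith), rf_rf hn, max_comm]

/-- the pair of values is permuted -/
theorem pol_pair {n : V} (hn : ‖n‖ = 1) (c : ℝ) (f : V → ℝ) (x : V) :
    (pol n c f x = f x ∧ pol n c f (rf n c x) = f (rf n c x)) ∨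
      (pol n c f x = f (rf n c x) ∧ pol n c f (rf n c x) = f x) := by
  rcases le_total (sd n c x) 0 with h | h
  · rw [pol_of_neg h, pol_rf_of_neg hn h]
    rcases le_total (f x) (f (rf n c x)) with h2 | h2
    · right; rw [max_eq_right h2, min_eq_left h2]; exact ⟨rfl, rfl⟩
    · left; rw [max_eq_left h2, min_eq_right h2]; exact ⟨rfl, rfl⟩
  · rw [pol_of_nonneg h, pol_rf_of_nonneg hn h]
    rcases le_total (f x) (f (rf n c x)) with h2 | h2
    · left; rw [max_eq_right h2, min_eq_left h2]; exact ⟨rfl, rfl⟩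
    · right; rw [max_eq_left h2, min_eq_right h2]; exact ⟨rfl, rfl⟩

theorem pol_sum {n : V} (hn : ‖n‖ = 1) (c : ℝ) (f : V → ℝ) (φ : ℝ → ℝ) (x : V) :
    φ (pol n c f x) + φ (pol n c f (rf n c x)) = φ (f x) + φ (f (rf n c x)) := by
  rcases pol_pair hn c f x with ⟨h1, h2⟩ | ⟨h1, h2⟩
  · rw [h1, h2]
  · rw [h1, h2, add_comm]

theorem pol_nonneg {n : V} (hn : ‖n‖ = 1) {c : ℝ} {f : V → ℝ} (hf : ∀ x, 0 ≤ f x) (x : V) :
    0 ≤ pol n c f x := by
  rcases pol_pair hn c f x with ⟨h1, -⟩ | ⟨h1, -⟩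
  · rw [h1]; exact hf _
  · rw [h1]; exact hf _

theorem pol_bd {n : V} (hn : ‖n‖ = 1) {c : ℝ} {f : V → ℝ} {M : ℝ} (hf : ∀ x, f x ≤ M) (x : V) :
    pol n c f x ≤ M := by
  rcases pol_pair hn c f x with ⟨h1, -⟩ | ⟨h1, -⟩
  · rw [h1]; exact hf _
  · rw [h1]; exact hf _

theorem pol_supp {n : V} (hn : ‖n‖ = 1) {c : ℝ} (hc : 0 ≤ c) {f : V → ℝ} (hf : ∀ x, 0 ≤ f x) {R : ℝ}
    (hR : ∀ x, R < ‖x‖ → f x = 0) (x : V) (hx : R < ‖x‖) : pol n c f x = 0 := by
  rcases le_total (sd n c x) 0 with h | h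
  · rw [pol_of_neg h]
    have h1 : ‖x‖ ≤ ‖rf n c x‖ := by
      have := norm_sq_rf hn c x
      refine le_of_sq_le_sq ?_ (norm_nonneg _)
      rw [this]
      nlinarith
    rw [hR x hx, hR _ (hx.trans_le h1)]
    simp
  · rw [pol_of_nonneg h, hR x hx]
    exact min_eq_left (hf _)
where
  le_of_sq_le_sq {a b : ℝ} (h : a ^ 2 ≤ b ^ 2) (hb : 0 ≤ b) : a ≤ b := by
    exact abs_le_of_sq_le_sq' h hb |>.2

/-- crossing point on the hyperplane -/
theorem exists_cross {n : V} {c : ℝ} {x y : V} (hx : sd n c x ≤ 0) (hy : 0 ≤ sd n c y) :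
    ∃ z : V, sd n c z = 0 ∧ dist x z + dist z y = dist x y := by
  by_cases h : sd n c x = sd n c y
  · refine ⟨x, by linarith, by simp⟩
  · set t : ℝ := sd n c x / (sd n c x - sd n c y) with ht
    have hd : sd n c x - sd n c y < 0 := by
      have : sd n c x ≤ sd n c y := hx.trans hy
      have := lt_of_le_of_ne this h
      linarith
    have ht0 : 0 ≤ t := div_nonneg_of_nonpos hx hd.le
    have ht1 : t ≤ 1 := by
      rw [ht, div_le_one_of_neg hd]
      linarith
    refine ⟨x + t • (y - x), ?_, ?_⟩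
    · unfold sd at *
      rw [inner_add_right, inner_smul_right, inner_sub_right]
      have hne : (inner ℝ n x - c) - (inner ℝ n y - c) ≠ 0 := hd.ne
      have : t * ((inner ℝ n x - c) - (inner ℝ n y - c)) = inner ℝ n x - c := by
        rw [ht]; exact div_mul_cancel₀ _ hne
      linarith
    · rw [dist_eq_norm, dist_eq_norm, dist_eq_norm]
      have e1 : x - (x + t • (y - x)) = t • (x - y) := by module
      have e2 : x + t • (y - x) - y = (1 - t) • (x - y) := by module
      rw [e1, e2, norm_smul, norm_smul, Real.norm_of_nonneg ht0, Real.norm_of_nonneg (by linarith)]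
      ring

theorem pol_lip {n : V} (hn : ‖n‖ = 1) {c : ℝ} {f : V → ℝ} {L : ℝ} (hL : 0 ≤ L)
    (hf : ∀ x y, |f x - f y| ≤ L * dist x y) (x y : V) :
    |pol n c f x - pol n c f y| ≤ L * dist x y := by
  have key : ∀ x y : V, |f (rf n c x) - f (rf n c y)| ≤ L * dist x y := by
    intro x y
    have := hf (rf n c x) (rf n c y)
    rwa [dist_eq_norm, norm_rf_sub_rf hn, ← dist_eq_norm] at this
  have hneg : ∀ x y, sd n c x ≤ 0 → sd n c y ≤ 0 → |pol n c f x - pol n c f y| ≤ L * dist x y := by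
    intro x y hx hy
    rw [pol_of_neg hx, pol_of_neg hy]
    exact (abs_max_sub_max_le_max _ _ _ _).trans (max_le (hf _ _) (key _ _))
  have hpos : ∀ x y, 0 ≤ sd n c x → 0 ≤ sd n c y → |pol n c f x - pol n c f y| ≤ L * dist x y := by
    intro x y hx hy
    rw [pol_of_nonneg hx, pol_of_nonneg hy]
    exact (abs_min_sub_min_le_max _ _ _ _).trans (max_le (hf _ _) (key _ _))
  have hmix : ∀ x y, sd n c x ≤ 0 → 0 ≤ sd n c y → |pol n c f x - pol n c f y| ≤ L * dist x y := by
    intro x y hx hy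
    obtain ⟨z, hz, hd⟩ := exists_cross hx hy
    calc |pol n c f x - pol n c f y| ≤ |pol n c f x - pol n c f z| + |pol n c f z - pol n c f y| :=
          abs_sub_le _ _ _
      _ ≤ L * dist x z + L * dist z y := add_le_add (hneg _ _ hx hz.le) (hpos _ _ hz.ge hy)
      _ = L * dist x y := by rw [← mul_add, hd]
  rcases le_total (sd n c x) 0 with hx | hx <;> rcases le_total (sd n c y) 0 with hy | hy
  · exact hneg x y hx hy
  · exact hmix x y hx hy
  · rw [abs_sub_comm, dist_comm]; exact hmix y x hy hx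
  · exact hpos x y hx hy

end Pool.Agent.H793R2.FK
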