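import Mathlib

set_option autoImplicit false
open MeasureTheory Filter Topology Metric Set

namespace Pool.Agent.H793R2.FK

variable {V : Type*} [NormedAddCommGroup V] [InnerProductSpace ℝ V]

/-- reflection in the hyperplane `⟪n, x⟫ = c`, for a unit vector `n` -/
noncomputable def rf (n : V) (c : ℝ) (x : V) : V := x - (2 * (inner ℝ n x - c)) • n

/-- signed distance to the hyperplane -/
noncomputable def sd (n : V) (c : ℝ) (x : V) : ℝ := inner ℝ n x - c

theorem sd_rf {n : V} (hn : ‖n‖ = 1) (c : ℝ) (x : V) : sd n c (rf n c x) = - sd n c x := by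
  unfold sd rf
  rw [inner_sub_right, inner_smul_right, real_inner_self_eq_norm_sq, hn]
  ring

theorem rf_rf {n : V} (hn : ‖n‖ = 1) (c : ℝ) (x : V) : rf n c (rf n c x) = x := by
  have h := sd_rf hn c x
  unfold sd at h
  rw [rf, h, rf]
  module

theorem rf_eq_self {n : V} {c : ℝ} {x : V} (h : sd n c x = 0) : rf n c x = x := by
  unfold sd at h
  unfold rf
  rw [h]; simp

/-- key identity -/
theorem norm_sub_rf_sq {n : V} (hn : ‖n‖ = 1) (c : ℝ) (x y : V) :
    ‖x - rf n c y‖ ^ 2 = ‖x - y‖ ^ 2 + 4 * (sd n c x * sd n c y) := by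
  unfold rf sd
  have e : x - (y - (2 * (inner ℝ n y - c)) • n) = (x - y) + (2 * (inner ℝ n y - c)) • n := by
    abel
  have hx : inner ℝ x n = inner ℝ n x := real_inner_comm _ _
  have hy : inner ℝ y n = inner ℝ n y := real_inner_comm _ _
  rw [e, norm_add_sq_real, norm_smul, hn, inner_smul_right, inner_sub_left, hx, hy]
  rw [mul_one, Real.norm_eq_abs, sq_abs]
  ring

theorem norm_rf_sub_rf {n : V} (hn : ‖n‖ = 1) (c : ℝ) (x y : V) :
    ‖rf n c x - rf n c y‖ = ‖x - y‖ := by
  have h := norm_sub_rf_sq hn c (rf n c x) y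
  rw [sd_rf hn] at h
  have h2 := norm_sub_rf_sq hn c y x
  rw [norm_sub_rev y (rf n c x), norm_sub_rev y x] at h2
  have h3 : ‖rf n c x - rf n c y‖ ^ 2 = ‖x - y‖ ^ 2 := by rw [h, h2]; ring
  exact (pow_left_inj₀ (norm_nonneg _) (norm_nonneg _) two_ne_zero).1 h3

theorem norm_rf_sub {n : V} (hn : ‖n‖ = 1) (c : ℝ) (x y : V) :
    ‖rf n c x - y‖ = ‖x - rf n c y‖ := by
  have h := norm_rf_sub_rf hn c x (rf n c y)
  rw [rf_rf hn] at h
  exact h

theorem norm_sq_rf {n : V} (hn : ‖n‖ = 1) (c : ℝ) (x : V) :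
    ‖rf n c x‖ ^ 2 = ‖x‖ ^ 2 - 4 * c * sd n c x := by
  have h := norm_sub_rf_sq hn c 0 x
  rw [zero_sub, norm_neg, zero_sub, norm_neg] at h
  rw [h]
  unfold sd
  rw [inner_zero_right]
  ring

/-- the reflection as a homeomorphism -/
noncomputable def rfe (n : V) (hn : ‖n‖ = 1) (c : ℝ) : V ≃ᵢ V :=
  IsometryEquiv.mk' (rf n c) (rf n c) (rf_rf hn c)
    (Isometry.of_dist_eq fun x y => by rw [dist_eq_norm, dist_eq_norm, norm_rf_sub_rf hn])

theorem continuous_rf (n : V) (c : ℝ) : Continuous (rf n c) := by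
  unfold rf; fun_prop

theorem continuous_sd (n : V) (c : ℝ) : Continuous (sd n c) := by
  unfold sd; fun_prop

section meas
variable [FiniteDimensional ℝ V] [MeasurableSpace V] [BorelSpace V]

theorem mp_rf {n : V} (hn : ‖n‖ = 1) (c : ℝ) :
    MeasurePreserving (rf n c) (volume : Measure V) volume := by
  have h1 : MeasurePreserving (Submodule.reflection (Submodule.span ℝ {n})ᗮ)
      (volume : Measure V) volume :=
    LinearIsometryEquiv.measurePreserving _
  have h2 : MeasurePreserving (fun x : V => x + (2 * c) • n) (volume : Measure V) volume :=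
    measurePreserving_add_right _ _
  have h3 := h2.comp h1
  have e : (fun x : V => x + (2 * c) • n) ∘ (Submodule.reflection (Submodule.span ℝ {n})ᗮ) = rf n c := by
    funext x
    simp only [Function.comp]
    rw [Submodule.reflection_orthogonal_apply, Submodule.reflection_singleton_apply]
    unfold rf
    rw [hn]
    simp only [RCLike.ofReal_real_eq_id, id_eq, one_pow, div_one]
    module
  rw [e] at h3
  exact h3

end meas

end Pool.Agent.H793R2.FK
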